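import Pool.Agent.Y226.ZE.Fin2

/-!
# MP_a325a5_ag: the Zilber-Pink conjecture for curves in `𝓔 × Y(1)^(n-1) × G_m^k`

`Y(1)` is identified with `ℂ` by the elliptic modular function `jj = j = E₄³ / Δ`. For
`X ≠ 0, 1728` let `E X` be the elliptic curve `y² = x³ + c x + c`, `c = -27 X / (4 (X - 1728))`,
whose `j`-invariant is `X`, and let `𝓔` be the elliptic surface over `Y(1) ∖ {0, 1728}` with the
fibres `E X`. The points of the mixed Shimura variety `𝓔 × Y(1)^(n-1) × G_m^k` are the triples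
`((X_1, …, X_n), P, (u_1, …, u_k))` with `P ∈ E X_i`, where the index `i = i₀` is fixed. A point `P`
different from the origin is given, up to the sign, by its abscissa `U`, so that (an open subset of)
the quotient of the mixed Shimura variety by `± 1` is the set of all
`x = (X, U, u) ∈ ℂ^(n + 1 + k)` with `X_i ≠ 0, 1728` and `u_l ≠ 0`.

The special subvarieties are the products of a special subvariety `Z` of `Y(1)^n`, of either all
points `P` (`t = 0`) or the torsion points `P` of some order (`t = 1`), and of a torsion coset `T` of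
`G_m^k`. Here `Z` is given by a `SpecialVariety`: its points are the points with `X_j = const_j` for
the constant coordinates and `X_j = j (g_j z_l)` for the coordinates of class `l`, with
`z_1, …, z_r` free in the upper half plane and `g_j` a fixed integral matrix of positive determinant.
The constants are the values `j (τ)` at CM points; we allow also all constants which are integral
over the ring generated by a given finite set `Γ` of algebraic numbers. `T` is given by a group `M`
of exponent vectors and a point `η` of finite order. The codimension is `(n - r) + t + rank M`. (For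
`t = 1` the set `special` is the union over all orders.)

Let `V` be an irreducible curve over the algebraic numbers in `ℂ^(n + 1 + k)` (of any genus and any
degree), given by its prime ideal `I`, with nonconstant coordinates, such that any two different
coordinates `z, z'` satisfy on `V` an equation `∑_{u ≤ a, v ≤ b} g_{uv} z ^ u z' ^ v = 0` with
`g_{00}, g_{a0}, g_{0b}, g_{ab} ≠ 0`, so that the zeros and poles of `z` on the smooth projective
model of `V` are different from those of `z'`.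

Theorem: let `K` be the number one if `k = 0`, and `K ≥ 3`, `K ≥ k (k - 1)` otherwise, and let `W`
be given. Then there is a number `D` such that for all rational `lam_j`, `mu_j` (`j ≤ n`), `lamU`,
`muU` and `nu_l ≠ 0` (`l ≤ k`) for which there are `K` prime numbers `p_1, …, p_K > D` with

* `v_{p_i} (lam_j) = - w_ij e_i`, where `e_i > 0` and `1 ≤ w_ij ≤ W`, and
  `v_{p_i} (mu_j) > v_{p_i} (lam_j)`,
* `v_{p_i} (lamU) = - w'_i e_i`, where `w'_i ≤ W` and `w'_i e_i ≥ 3`, and
  `v_{p_i} (muU) > v_{p_i} (lamU)`,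
* `v_{p_i} (nu_l) = f_i c_il`, where `f_i > 0`, `|c_il| ≤ W` and `c` is `Independent`
  (for `k ≤ 1` this is no condition, for `k = 2` it means that all `c_il` are different from zero),

the image `V'` of `V` under `(X, U, u) ↦ (lam X + mu, lamU U + muU, nu u)` has only finitely many
points on the special subvarieties of codimension at least two, except possibly those of the form
`{(X_i, P) = (s, Q)}` with a CM point `s` and a torsion point `Q` of `E s` (in the Lean statement:
`cls i₀ ≠ none` if `t = 1`; special subvarieties of larger codimension on which `X_i` is constant and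
`P` is torsion are contained in others which satisfy this condition). The points of the latter type
project to special points of the surface `𝓔`, for which the Andre-Oort conjecture is known (Andre).
For example, for `k = 0` the theorem holds for the images of `V` under
`(X, U) ↦ (X / m + c, U / m ^ 3 + c')` for all integers `m` with a prime factor greater than `D` and
all integral `c, c'`.
-/

namespace Pool.Agent.Results.MP_a325a5_ag.EllipticSurfaceProducts

open H294ZP MvPolynomial UpperHalfPlane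

/-- The elliptic curve `y² = x³ + c x + c` with `c = -27 X / (4 (X - 1728))`. -/
def E {F : Type} [Field F] (X : F) : WeierstrassCurve F :=
  ⟨0, 0, 0, -(27 * X) / (4 * (X - 1728)), -(27 * X) / (4 * (X - 1728))⟩

/-- `E X` is an elliptic curve with `j`-invariant `c₄³ / Δ = X`. -/
theorem E_j {F : Type} [Field F] [CharZero F] {X : F} (h0 : X ≠ 0) (h1 : X ≠ 1728) :
    (E X).Δ ≠ 0 ∧ (E X).c₄ ^ 3 = X * (E X).Δ := by
  have h2 : X - 1728 ≠ 0 := sub_ne_zero.2 h1
  have e : (E X).Δ = 2 ^ 12 * 3 ^ 12 * X ^ 2 / (4 * (X - 1728)) ^ 3 := by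
    simp only [E, WeierstrassCurve.Δ, WeierstrassCurve.b₂, WeierstrassCurve.b₄,
      WeierstrassCurve.b₆, WeierstrassCurve.b₈]
    field_simp
    ring
  have e' : (E X).c₄ ^ 3 = X * (2 ^ 12 * 3 ^ 12 * X ^ 2 / (4 * (X - 1728)) ^ 3) := by
    simp only [E, WeierstrassCurve.c₄, WeierstrassCurve.b₂, WeierstrassCurve.b₄]
    field_simp
    ring
  refine ⟨?_, by rw [e', e]⟩
  rw [e]
  exact div_ne_zero (mul_ne_zero (by norm_num) (pow_ne_zero 2 h0))
    (pow_ne_zero 3 (mul_ne_zero (by norm_num) h2))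

open Classical in
/-- `U` is the abscissa of a torsion point of `E X`. -/
def IsTorsion {F : Type} [Field F] (X U : F) : Prop :=
  ∃ (y : F) (h : (E X).toAffine.Nonsingular U y),
    IsOfFinAddOrder (WeierstrassCurve.Affine.Point.some U y h)

/-- A special subvariety of dimension `r` of `Y(1)^n`. The constant coordinates are those with
`cls j = none`. The allowed constants are the singular moduli and the numbers which are integral
over the ring generated by `Γ`. -/
structure SpecialVariety (Γ : Set ℂ) (n r : ℕ) where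
  cls : Fin n → Option (Fin r)
  surj : ∀ l : Fin r, ∃ j, cls j = some l
  mat : Fin n → Matrix (Fin 2) (Fin 2) ℤ
  det_pos : ∀ j, 0 < (mat j).det
  const : Fin n → ℂ
  allowed : ∀ j, (∃ τ : ℍ, IsCM τ ∧ const j = jj τ) ∨ IsIntegral (Algebra.adjoin ℤ Γ) (const j)

/-- The points of a special subvariety of `Y(1)^n`. -/
def SpecialVariety.locus {Γ : Set ℂ} {n r : ℕ} (Z : SpecialVariety Γ n r) : Set (Fin n → ℂ) :=
  {x | ∃ z : Fin r → ℍ, ∀ j, (Z.cls j = none → x j = Z.const j) ∧
    ∀ l, Z.cls j = some l → ∃ w : ℍ,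
      (w : ℂ) * (Z.mat j 1 0 * z l + Z.mat j 1 1) = Z.mat j 0 0 * z l + Z.mat j 0 1 ∧
      x j = jj w}

/-- The coordinates `X_1, …, X_n` of a point. -/
def modularPart {n k : ℕ} (x : Fin (n + 1 + k) → ℂ) : Fin n → ℂ :=
  fun j => x (Fin.castAdd k j.castSucc)

/-- The coordinate `U` of a point. -/
def abscissa {n k : ℕ} (x : Fin (n + 1 + k) → ℂ) : ℂ := x (Fin.castAdd k (Fin.last n))

/-- The coordinates `u_1, …, u_k` of a point. -/
def torusPart {n k : ℕ} (x : Fin (n + 1 + k) → ℂ) : Fin k → ℂ := fun l => x (Fin.natAdd (n + 1) l)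

/-- The set of all `(X, U, u)` with `X_i ≠ 0, 1728` and `u_l ≠ 0`. -/
def ambient {n : ℕ} (i₀ : Fin n) (k : ℕ) : Set (Fin (n + 1 + k) → ℂ) :=
  {x | modularPart x i₀ ≠ 0 ∧ modularPart x i₀ ≠ 1728 ∧ ∀ l, torusPart x l ≠ 0}

/-- The points `(X, U, u)` with `X ∈ Z`, with a torsion point `(U, y)` of `E X_i` if `t = 1`, and
with `u ^ a = η ^ a` for all `a ∈ M`. -/
def special {Γ : Set ℂ} {n k r : ℕ} (i₀ : Fin n) (Z : SpecialVariety Γ n r) (t : ℕ)
    (M : Submodule ℤ (Fin k → ℤ)) (η : Fin k → ℂ) : Set (Fin (n + 1 + k) → ℂ) :=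
  {x | x ∈ ambient i₀ k ∧ modularPart x ∈ Z.locus ∧
    (t = 1 → IsTorsion (modularPart x i₀) (abscissa x)) ∧
    ∀ a ∈ M, ∏ l, torusPart x l ^ a l = ∏ l, η l ^ a l}

/-- The zero set `V` of the ideal `I`. -/
def curve {n : ℕ} (I : Ideal (MvPolynomial (Fin n) (algebraicClosure ℚ ℂ))) : Set (Fin n → ℂ) :=
  {y | ∀ f ∈ I, aeval y f = 0}

/-- The image of `V` under `(X, U, u) ↦ (lam X + mu, lamU U + muU, nu u)`. -/
def image {n k : ℕ} (i₀ : Fin n) (I : Ideal (MvPolynomial (Fin (n + 1 + k)) (algebraicClosure ℚ ℂ)))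
    (lam mu : Fin n → ℚ) (lamU muU : ℚ) (nu : Fin k → ℚ) : Set (Fin (n + 1 + k) → ℂ) :=
  {x | x ∈ ambient i₀ k ∧ ∃ y ∈ curve I,
    (∀ j, modularPart x j = lam j * modularPart y j + mu j) ∧
    abscissa x = lamU * abscissa y + muU ∧ ∀ l, torusPart x l = nu l * torusPart y l}

/-- For each set `S` of at least `k - 1` indices and each `l`, the vectors `(c_il')_{l' ≠ l}`,
`i ∈ S`, span `ℚ^(k-1)`. -/
def Independent {K k : ℕ} (c : Fin K → Fin k → ℤ) : Prop :=
  ∀ S : Finset (Fin K), k ≤ S.card + 1 → ∀ (l : Fin k) (a : Fin k → ℤ), a l = 0 →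
    (∀ i ∈ S, ∑ l', a l' * c i l' = 0) → a = 0

/-- Special subvarieties in the form used in the proof. -/
def SpecialVariety.toSV {Γ : Set ℂ} {n r : ℕ} (Z : SpecialVariety Γ n r) :
    Pool.Agent.Y226.ZM.SV Γ n r where
  cls := Z.cls
  mat := Z.mat
  det_pos := Z.det_pos
  const := Z.const
  int := fun i => by
    rcases Z.allowed i with ⟨τ, hτ, h⟩ | h
    · rw [h]
      exact (singular_modulus_integral τ hτ).tower_top
    · exact h

theorem IsTorsion.conv {F : Type} [Field F] [iF : DecidableEq F] {X U : F} (h : IsTorsion X U) :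
    ∃ (y : F) (h : (Pool.Agent.H901R3.MS.CV (Pool.Agent.Y226.ZE.co X)
      (Pool.Agent.Y226.ZE.co X)).toAffine.Nonsingular U y),
      IsOfFinAddOrder (WeierstrassCurve.Affine.Point.some U y h) := by
  have e1 : iF = fun a b => Classical.propDecidable (a = b) := Subsingleton.elim _ _
  subst e1
  exact h

theorem result {n k K : ℕ} (i₀ : Fin n)
    (I : Ideal (MvPolynomial (Fin (n + 1 + k)) (algebraicClosure ℚ ℂ)))
    (hI : I.IsPrime)
    (hconst : ∀ (i : Fin (n + 1 + k)) (c : algebraicClosure ℚ ℂ), X i - C c ∉ I)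
    (hgen : ∀ i j : Fin (n + 1 + k), i ≠ j → ∃ (a b : ℕ) (g : ℕ → ℕ → algebraicClosure ℚ ℂ),
      g 0 0 ≠ 0 ∧ g a 0 ≠ 0 ∧ g 0 b ≠ 0 ∧ g a b ≠ 0 ∧
      ∑ u ∈ Finset.range (a + 1), ∑ v ∈ Finset.range (b + 1),
        C (g u v) * X i ^ u * X j ^ v ∈ I) (W : ℕ)
    (Γ : Finset ℂ) (hΓ : ∀ γ ∈ Γ, IsAlgebraic ℚ γ) (hK1 : 1 ≤ K) (hK3 : k = 0 ∨ 3 ≤ K)
    (hK : k * (k - 1) ≤ K) :
    ∃ D : ℕ, ∀ (lam mu : Fin n → ℚ) (lamU muU : ℚ) (nu : Fin k → ℚ), (∀ l, nu l ≠ 0) →
      (∃ (p e f w' : Fin K → ℕ) (w : Fin K → Fin n → ℕ) (c : Fin K → Fin k → ℤ),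
        Function.Injective p ∧ Independent c ∧ ∀ i, (p i).Prime ∧ D < p i ∧ 0 < e i ∧ 0 < f i ∧
        (∀ j, 0 < w i j ∧ w i j ≤ W ∧ padicValRat (p i) (lam j) = -((w i j : ℤ) * e i) ∧
          padicValRat (p i) (lam j) < padicValRat (p i) (mu j)) ∧
        (3 ≤ w' i * e i ∧ w' i ≤ W ∧ padicValRat (p i) lamU = -((w' i : ℤ) * e i) ∧
          padicValRat (p i) lamU < padicValRat (p i) muU) ∧
        ∀ l, |c i l| ≤ W ∧ padicValRat (p i) (nu l) = (f i : ℤ) * c i l) →
      {x | x ∈ image i₀ I lam mu lamU muU nu ∧ ∃ (r t : ℕ) (Z : SpecialVariety (Γ : Set ℂ) n r)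
        (M : Submodule ℤ (Fin k → ℤ)) (η : Fin k → ℂ), (∀ l, ∃ o : ℕ, 0 < o ∧ η l ^ o = 1) ∧
        t ≤ 1 ∧ (t = 1 → Z.cls i₀ ≠ none) ∧ r + 2 ≤ n + t + Module.finrank ℤ M ∧
        x ∈ special i₀ Z t M η}.Finite := by
  obtain ⟨D, hD⟩ := Pool.Agent.Y226.ZE.main_surf i₀ I hI hconst hgen W Γ hΓ hK1 hK3 hK
  refine ⟨D, fun lam mu lamU muU nu hnu h => (hD lam mu lamU muU nu hnu h).subset ?_⟩
  rintro x ⟨⟨⟨h0, h1, h2⟩, y, hy, hxl, hxU, hxr⟩, r, t, Z, M, η, hη, ht1, htc, hr, -, hZ, ht, hM⟩
  refine ⟨⟨y, hy, funext fun i => ?_⟩, h2, h0, h1, r, t, Z.toSV, M, η, hη, ht1, hr, hZ,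
    fun h3 => ⟨htc h3, (ht h3).conv⟩, hM⟩
  refine Fin.addCases (motive := fun i => x i = Pool.Agent.Y226.ZM.Th (Fin.snoc lam lamU)
    (Fin.snoc mu muU) nu y i) ?_ ?_ i
  · intro j
    refine Fin.lastCases (motive := fun j => x (Fin.castAdd k j) = Pool.Agent.Y226.ZM.Th
      (Fin.snoc lam lamU) (Fin.snoc mu muU) nu y (Fin.castAdd k j)) ?_ ?_ j
    · unfold Pool.Agent.Y226.ZM.Th
      rw [Fin.append_left, Fin.snoc_last (α := fun _ => ℚ) lamU lam,
        Fin.snoc_last (α := fun _ => ℚ) muU mu]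
      exact hxU
    · intro j
      unfold Pool.Agent.Y226.ZM.Th
      rw [Fin.append_left, Fin.snoc_castSucc (α := fun _ => ℚ) lamU lam j,
        Fin.snoc_castSucc (α := fun _ => ℚ) muU mu j]
      exact hxl j
  · intro l
    unfold Pool.Agent.Y226.ZM.Th
    rw [Fin.append_right]
    exact hxr l

end Pool.Agent.Results.MP_a325a5_ag.EllipticSurfaceProducts
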