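import Pool.Agent.Y910.Z.Z4

/-!
# MP_a325a5_ag: Zilber-Pink in the mixed Shimura varieties `Y_1 × … × Y_n × G_m^k` for almost all
members of one-parameter families over finitely generated fields

The Shimura variety `Y(1)^n` is identified with `ℂ^n` by the elliptic modular function
`jj = j = E₄³ / Δ`. The ambient variety is `Y(1)^n × G_m^k`, with coordinates indexed by
`Fin n ⊕ Fin k`, or more generally a product of modular curves of any levels (finite over `Y(1)^n`)
and a torus; for `n = 0` it is a torus, for `k = 0` a pure Shimura variety.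

**Families.** Let `K ⊂ ℂ` be a countable field. We consider algebraic families `X_t` of subsets of
`Y(1)^n × G_m^k` with one parameter `t`, given by
* a family `B_t ⊆ P^N` of projective algebraic sets, defined by forms `G l` with coefficients in
  `K[t]`,
* quotients `f_i = A_i / B_i` of forms of the same degree `d_i` with coefficients in `K[t]`, one for
  every coordinate,
* functions `s_i` integral over `K[j]`, `R_i (s_i, j) = 0` with `R_i` monic in the first variable
  (level one: `R_i = S - J`, `s_i = j`; in general modular functions of any level without poles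
  in the upper half plane), and polynomials `c_i ∈ K[t]`:
`X_t` (`scaledImage`) is the set of all `(x, u)` such that for some `y ∈ B_t` and some `s` we have
`R_i (s_i, x_i) = 0`, `c_i (t) s_i = A_i (y) / B_i (y)` for the modular coordinates, and
`c_j (t) u_j = A_j (y) / B_j (y)` for the torus coordinates.

Let `D_1, …, D_M` be finite sets of complex numbers algebraic over `K`. The family degenerates at
the elements of the `D_l` in the following sense: for all `α` in `D_l`
* no point of `B_α` lies on `m + 1` of the divisors of the `f_i` (at `t = α`), and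
* the `c_i` have zeros at `α`, of orders `e_i (α) > 0`, and these orders are independent
  (`IndependentOrders`): for the modular coordinates `q e_i (α) e_j (α) e_i (α') e_j (α')` is not a
  square for `α` in `D_l` and `α'` in `D_l'`, `l ≠ l'`, `i ≠ j`, `1 ≤ q ≤ T^8`, where `T` bounds the
  degrees of the `R_i` (`T = 1` for level one), and for the torus coordinates the vectors
  `(e_j (α_l))_j` span `ℚ^k` if `α_l` is in `D_l` for at least `k` of the `l`.

**Theorem.** Let `F` be a finite set of complex numbers algebraic over `K`, and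
`L = n (n - 1) / 2 + k 2^k`.
1. If the union of any `M - L` or more of the sets `D_l` has at least three elements (for instance,
   if there are `L + 3` disjoint nonempty sets, or `L + 1` sets with three elements), then for all
   but finitely many `t` in the field generated by `F`, and
2. if the union of any `M - L` or more of the sets `D_l` has at least two elements, then for all but
   finitely many `t` in the ring generated by `F`,
the set `X_t` has no atypical intersection with the products `Z × C`, `Z` a special subvariety of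
`Y(1)^n` and `C` a torsion coset: every irreducible subset of `X_t ∩ (Z × C)`, closed in
`ℂ^n × (ℂ^×)^k`, has dimension at most `dim Z + dim C + m - (n + k)`, and the same bound holds for
the transcendence degrees of the points of `X_t ∩ (Z × C)` over `K`. The constant coordinates of `Z`
can be special points or integral over the ring generated by any given finite set `Γ` of numbers
algebraic over `K`, and `C` can be any coset of an algebraic subgroup by a point `η` such that the
`η_j` and `1 / η_j` are integral over this ring.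

The starting file `MP_defd1c_ag.MixedLocalCriterion` treats parameters transcendental over `K` (with
`M ≥ L + 1`); for `k = 0` the theorem is contained in `MP_d83ecd_ag.FinitelyGeneratedFields`, and for
`n = 0` it is related to `MP_c95b3b_ag.FinitelyGeneratedFields`. The starting file `RationalTranslates`
is about the translates of a fixed variety along rational curves, with rational parameter.

The proof combines the local criterion of the starting files (`TH526.ZL.criterionM`) with a
dichotomy: either there is a prime ideal of the ring `Λ` generated by `t` and a given finite set which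
contains `t - α` for some `α` in `D_l`, or `t` differs from all the elements of `D_l` by units of
`Λ`. The second case happens for too many `l` only for finitely many `t`, by the finiteness of the
solutions of the unit equation in finitely generated rings.
-/

set_option autoImplicit false

namespace Pool.Agent.Results.MP_a325a5_ag.FinitelyGeneratedFields

open H294ZP UpperHalfPlane MvPolynomial Pool.Agent.W282.ZP Pool.Agent.Y910.Z
open Pool.Agent.TH526.ZL (spec)

/-- A special subvariety of `Y(1)^n = ℂ^n` of dimension `r` (with more constants allowed): a map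
`cls` from the coordinates onto `r` classes (`none` for constant coordinates), an integral matrix
of positive determinant for every coordinate, and a constant for every coordinate, which is a
special point or integral over `Λ`. -/
structure SpecialVariety {Λ : Type} [CommRing Λ] (f : Λ →+* ℂ) (n r : ℕ) where
  cls : Fin n → Option (Fin r)
  surj : ∀ l : Fin r, ∃ i, cls i = some l
  mat : Fin n → Matrix (Fin 2) (Fin 2) ℤ
  det_pos : ∀ i, 0 < (mat i).det
  const : Fin n → ℂ
  allowed : ∀ i, (∃ τ : ℍ, IsCM τ ∧ const i = jj τ) ∨ f.IsIntegralElem (const i)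

/-- The points of the special subvariety: the constant coordinates are the given constants, and the
coordinates of class `l` are `j (g_i z_l)`, with a free parameter `z_l` in the upper half plane. -/
def SpecialVariety.locus {Λ : Type} [CommRing Λ] {f : Λ →+* ℂ} {n r : ℕ}
    (Z : SpecialVariety f n r) : Set (Fin n → ℂ) :=
  {x | ∃ z : Fin r → ℍ, ∀ i, (Z.cls i = none → x i = Z.const i) ∧
    ∀ l, Z.cls i = some l → ∃ w : ℍ,
      (w : ℂ) * (Z.mat i 1 0 * z l + Z.mat i 1 1) = Z.mat i 0 0 * z l + Z.mat i 0 1 ∧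
      x i = jj w}

/-- The coset `{y | y ^ a = η ^ a for all a in M}` of an algebraic subgroup of `(ℂ^×)^k`, of
dimension `k - rank M`. -/
def coset {k : ℕ} (M : Submodule ℤ (Fin k → ℤ)) (η : Fin k → ℂ) : Set (Fin k → ℂ) :=
  {y | (∀ i, y i ≠ 0) ∧ ∀ a ∈ M, ∏ i, y i ^ a i = ∏ i, η i ^ a i}

/-- `X` has no atypical intersection with the products `Z × C`, `dim Z = r`, `dim C = k - rank M`,
if `X` is regarded as a set of dimension `m`: every irreducible subset `A` of `X ∩ (Z × C)`, closed
in `ℂ^n × (ℂ^×)^k`, has dimension at most `r + m - n - rank M = dim Z + dim C + m - (n + k)`, and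
every point of `X ∩ (Z × C)` has at most this transcendence degree over `K`. -/
def NoAtypical {Λ : Type} [CommRing Λ] (f : Λ →+* ℂ) (K : Subfield ℂ) {n k : ℕ} (m : ℕ)
    (X : Set (Fin n ⊕ Fin k → ℂ)) : Prop :=
  ∀ (r : ℕ) (Z : SpecialVariety f n r) (M : Submodule ℤ (Fin k → ℤ)) (η : Fin k → ℂ),
    (∀ j, η j ≠ 0 ∧ f.IsIntegralElem (η j) ∧ f.IsIntegralElem (η j)⁻¹) →
    (∀ A ⊆ X ∩ {x | (fun i => x (Sum.inl i)) ∈ Z.locus ∧ (fun j => x (Sum.inr j)) ∈ coset M η},
      (∀ x ∈ zcl A, (∀ j, x (Sum.inr j) ≠ 0) → x ∈ A) → (idealOf A).IsPrime →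
      zdim A + (n : Cardinal) + (Module.finrank ℤ M : Cardinal) ≤ (r : Cardinal) + (m : Cardinal)) ∧
    ∀ x ∈ X, (fun i => x (Sum.inl i)) ∈ Z.locus → (fun j => x (Sum.inr j)) ∈ coset M η →
      ∀ S : Finset (Fin n ⊕ Fin k), AlgebraicIndependent K (fun i : S => x i) →
        S.card + n + Module.finrank ℤ M ≤ r + m

/-- the value at `t` of a polynomial with coefficients in `K` -/
noncomputable def evalAt (K : Subfield ℂ) (t : ℂ) : Polynomial K →+* ℂ :=
  (Polynomial.aeval t : Polynomial K →ₐ[K] ℂ).toRingHom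

/-- `y` is a vector of homogeneous coordinates of a point of the member `B_t` of the family of
projective algebraic sets defined by the forms `G l`. -/
def OnB {K : Subfield ℂ} (t : ℂ) {N : ℕ} {κ : Type}
    (G : κ → MvPolynomial (Fin (N + 1)) (Polynomial K)) (y : Fin (N + 1) → ℂ) : Prop :=
  y ≠ 0 ∧ ∀ l, eval₂ (evalAt K t) y (G l) = 0

/-- The divisors of the `A i / B i` are in general position at `t`: no point of `B_t` lies on
`m + 1` of them. -/
def InGeneralPosition {K : Subfield ℂ} (t : ℂ) {N n k : ℕ} {κ : Type} (m : ℕ)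
    (G : κ → MvPolynomial (Fin (N + 1)) (Polynomial K))
    (A B : Fin n ⊕ Fin k → MvPolynomial (Fin (N + 1)) (Polynomial K)) : Prop :=
  ∀ I : Finset (Fin n ⊕ Fin k), I.card = m + 1 → ∀ y : Fin (N + 1) → ℂ, OnB t G y →
    ∃ i ∈ I, eval₂ (evalAt K t) y (A i) * eval₂ (evalAt K t) y (B i) ≠ 0

/-- The value at `(s, x)` of a polynomial `R = ∑ r_u (J) S^u` in two variables `S` and `J`. -/
noncomputable def valueAt {K : Subfield ℂ} (R : Polynomial (Polynomial K)) (s x : ℂ) : ℂ :=
  Polynomial.eval₂ (Polynomial.aeval x : Polynomial K →ₐ[K] ℂ).toRingHom s R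

/-- The member `X_t` of the family of subsets of `Y(1)^n × G_m^k`: the points `x` over which there are
values `s_i` of the functions on the factors of the product of modular curves, with
`c_i (t) s_i = A_i (y) / B_i (y)` for the modular and `c_j (t) x_j = A_j (y) / B_j (y)` for the torus
coordinates, for a point `y` of `B_t`. -/
def scaledImage {K : Subfield ℂ} (t : ℂ) {N n k : ℕ} {κ : Type}
    (G : κ → MvPolynomial (Fin (N + 1)) (Polynomial K))
    (A B : Fin n ⊕ Fin k → MvPolynomial (Fin (N + 1)) (Polynomial K))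
    (R : Fin n → Polynomial (Polynomial K)) (c : Fin n ⊕ Fin k → Polynomial K) :
    Set (Fin n ⊕ Fin k → ℂ) :=
  {x | (∀ j, x (Sum.inr j) ≠ 0) ∧ ∃ y, OnB t G y ∧
    (∃ s : Fin n → ℂ, ∀ i, valueAt (R i) (s i) (x (Sum.inl i)) = 0 ∧
      evalAt K t (c (Sum.inl i)) * eval₂ (evalAt K t) y (B (Sum.inl i)) * s i =
        eval₂ (evalAt K t) y (A (Sum.inl i))) ∧
    ∀ j, evalAt K t (c (Sum.inr j)) * eval₂ (evalAt K t) y (B (Sum.inr j)) * x (Sum.inr j) =
      eval₂ (evalAt K t) y (A (Sum.inr j))}

/-- The order of the zero of `c` at the complex number `α`. -/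
noncomputable def order {K : Subfield ℂ} (c : Polynomial K) (α : ℂ) : ℕ :=
  (c.map (algebraMap K ℂ)).rootMultiplicity α

/-- The orders of the zeros of the `c i` at the elements of the `D l` are positive and
independent. -/
def IndependentOrders {K : Subfield ℂ} {n k M : ℕ} (T : ℕ) (c : Fin n ⊕ Fin k → Polynomial K)
    (D : Fin M → Finset ℂ) : Prop :=
  (∀ l, ∀ α ∈ D l, ∀ i, 0 < order (c i) α) ∧
  (∀ l l', l ≠ l' → ∀ α ∈ D l, ∀ α' ∈ D l', ∀ i j : Fin n, i ≠ j → ∀ q, 0 < q → q ≤ T ^ 8 →
    ¬ IsSquare (q * (order (c (Sum.inl i)) α * order (c (Sum.inl j)) α *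
      (order (c (Sum.inl i)) α' * order (c (Sum.inl j)) α')))) ∧
  ∀ (s : Finset (Fin M)) (α : Fin M → ℂ), (∀ l ∈ s, α l ∈ D l) → k ≤ s.card →
    ∀ b : Fin k → ℤ, (∀ l ∈ s, ∑ j, b j * (order (c (Sum.inr j)) (α l) : ℤ) = 0) → b = 0

/-- The class relation of the points of a special subvariety. -/
theorem rel_of_locus {Λ : Type} [CommRing Λ] {f : Λ →+* ℂ} {n r : ℕ} (Z : SpecialVariety f n r)
    {x : Fin n → ℂ} (hx : x ∈ Z.locus) (i j : Fin n) (l : Fin r) (hi : Z.cls i = some l)
    (hj : Z.cls j = some l) : IsIntegral (Algebra.adjoin ℤ {x i}) (x j) ∧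
      Polynomial.eval₂ (Polynomial.aeval (x i) : Polynomial ℂ →ₐ[ℂ] ℂ).toRingHom (x j)
        (Psi ((Z.mat i).det * (Z.mat j).det).toNat) = 0 := by
  obtain ⟨z, hz⟩ := hx
  obtain ⟨w, hw, hxw⟩ := (hz i).2 l hi
  obtain ⟨w', hw', hxw'⟩ := (hz j).2 l hj
  refine ⟨?_, ?_⟩
  · obtain ⟨a, b, c, d, e1, e2⟩ := isogeny_rel (Z.det_pos i) hw hw'
    rw [hxw, hxw']
    exact isogenous_integral w w' a b c d (by
      rw [e1]
      exact mul_pos (Z.det_pos i) (Z.det_pos j)) e2
  · rw [← eval_relPoly]
    exact eval_relPoly_eq_zero (Z.det_pos i) (Z.det_pos j) hw hw' hxw hxw'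

/-- integrality over a larger ring -/
theorem int_up {Λ : Type} [CommRing Λ] [Algebra Λ ℂ]
    (hinj : Function.Injective (algebraMap Λ ℂ)) (Γ : Set ℂ)
    (h : ∀ g ∈ Γ, g ∈ (algebraMap Λ ℂ).range) {z : ℂ}
    (hz : IsIntegral (Algebra.adjoin ℤ Γ) z) : IsIntegral Λ z := by
  obtain ⟨P, hP, hPe⟩ := hz
  have hle : ∀ w ∈ Algebra.adjoin ℤ Γ, w ∈ (algebraMap Λ ℂ).range := by
    intro w hw
    have h9 : Algebra.adjoin ℤ Γ ≤ subalgebraOfSubring (algebraMap Λ ℂ).range :=
      Algebra.adjoin_le fun g hg => h g hg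
    exact h9 hw
  let e : Λ ≃+* (algebraMap Λ ℂ).range := RingEquiv.ofBijective (algebraMap Λ ℂ).rangeRestrict
    ⟨fun a b h => hinj (congrArg Subtype.val h), (algebraMap Λ ℂ).rangeRestrict_surjective⟩
  let φ : Algebra.adjoin ℤ Γ →+* Λ := (e.symm : (algebraMap Λ ℂ).range →+* Λ).comp
    ((algebraMap (Algebra.adjoin ℤ Γ) ℂ).codRestrict (algebraMap Λ ℂ).range
      fun w => hle w w.2)
  refine ⟨P.map φ, hP.map φ, ?_⟩
  rw [Polynomial.eval₂_map]
  have h1 : (algebraMap Λ ℂ).comp φ = algebraMap (Algebra.adjoin ℤ Γ) ℂ := by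
    refine RingHom.ext fun w => ?_
    have h2 : ((e (φ w) : (algebraMap Λ ℂ).range) : ℂ) = (w : ℂ) := by
      have h3 : e (φ w) = ⟨(w : ℂ), hle w w.2⟩ := e.apply_symm_apply _
      rw [h3]
    exact h2
  rw [h1]
  exact hPe

/-- homogeneous lifts -/
theorem hom_lift {A B : Type} [CommRing A] [CommRing B] (f : A →+* B)
    {σ : Type} {P' : MvPolynomial σ A} {P : MvPolynomial σ B} (h : MvPolynomial.map f P' = P)
    (hf : Function.Injective f) {e : ℕ} (hP : P.IsHomogeneous e) : P'.IsHomogeneous e := by
  intro u hu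
  refine hP (d := u) ?_
  rw [← h, MvPolynomial.coeff_map]
  exact (map_ne_zero_iff f hf).2 hu

/-- One-parameter families in products of modular curves and tori which degenerate at sufficiently
many algebraic values of the parameter: all but finitely many of the members with parameter in a
finitely generated field or ring have no atypical intersection. -/
theorem result (K : Subfield ℂ) [Countable K] (κ : Type) [Finite κ] (N n k m M T : ℕ)
    (G : κ → MvPolynomial (Fin (N + 1)) (Polynomial K)) (hG : ∀ l, ∃ e, (G l).IsHomogeneous e)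
    (A B : Fin n ⊕ Fin k → MvPolynomial (Fin (N + 1)) (Polynomial K)) (δ : Fin n ⊕ Fin k → ℕ)
    (hA : ∀ i, (A i).IsHomogeneous (δ i)) (hB : ∀ i, (B i).IsHomogeneous (δ i))
    (R : Fin n → Polynomial (Polynomial K)) (hR : ∀ i, (R i).Monic)
    (hT : ∀ i u w, ((R i).coeff u).coeff w ≠ 0 → u ≤ T ∧ w ≤ T)
    (c : Fin n ⊕ Fin k → Polynomial K) (D : Fin M → Finset ℂ)
    (hD : ∀ l, ∀ α ∈ D l, IsAlgebraic K α) (hind : IndependentOrders T c D)
    (hpos : ∀ l, ∀ α ∈ D l, InGeneralPosition α m G A B)
    (Γ : Finset ℂ) (hΓ : ∀ γ ∈ Γ, IsAlgebraic K γ) (F : Finset ℂ)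
    (hF : ∀ z ∈ F, IsAlgebraic K z) :
    ((∀ I : Finset (Fin M), M ≤ I.card + (n.choose 2 + k * 2 ^ k) → 3 ≤ (I.biUnion D).card) →
      {t : ℂ | t ∈ Subfield.closure (F : Set ℂ) ∧
        ¬ NoAtypical (algebraMap (Algebra.adjoin ℤ (Γ : Set ℂ)) ℂ) K m
          (scaledImage t G A B R c)}.Finite) ∧
    ((∀ I : Finset (Fin M), M ≤ I.card + (n.choose 2 + k * 2 ^ k) → 2 ≤ (I.biUnion D).card) →
      {t : ℂ | t ∈ Subring.closure (F : Set ℂ) ∧
        ¬ NoAtypical (algebraMap (Algebra.adjoin ℤ (Γ : Set ℂ)) ℂ) K m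
          (scaledImage t G A B R c)}.Finite) := by
  classical
  let kk := algebraicClosure K ℂ
  have hcl : IsAlgClosure K kk := inferInstance
  have hac : IsAlgClosed kk := hcl.isAlgClosed
  have hc0k : CharZero kk := inferInstance
  let φ : Polynomial K →+* Polynomial kk := Polynomial.mapRingHom (algebraMap K kk)
  have hev : ∀ (t : kk), (algebraMap kk ℂ).comp ((Polynomial.evalRingHom t).comp φ) =
      evalAt K (algebraMap kk ℂ t) := by
    intro t
    refine Polynomial.ringHom_ext (fun a => ?_) ?_
    · simp only [φ, evalAt, RingHom.comp_apply, Polynomial.coe_mapRingHom, Polynomial.map_C,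
        Polynomial.coe_evalRingHom, Polynomial.eval_C, AlgHom.toRingHom_eq_coe, RingHom.coe_coe,
        Polynomial.aeval_C]
      rfl
    · simp only [φ, evalAt, RingHom.comp_apply, Polynomial.coe_mapRingHom, Polynomial.map_X,
        Polynomial.coe_evalRingHom, Polynomial.eval_X, AlgHom.toRingHom_eq_coe, RingHom.coe_coe,
        Polynomial.aeval_X]
  have hspec : ∀ (t : kk) (P : MvPolynomial (Fin (N + 1)) (Polynomial K)) (y : Fin (N + 1) → ℂ),
      aeval y (spec t (MvPolynomial.map φ P)) =
        eval₂ (evalAt K (algebraMap kk ℂ t)) y P := by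
    intro t P y
    rw [spec, MvPolynomial.map_map, aeval_def, eval₂_map, hev]
  have hmult : ∀ (α : kk) (i : Fin n ⊕ Fin k), (φ (c i)).rootMultiplicity α =
      order (c i) (algebraMap kk ℂ α) := by
    intro α i
    have h1 := Polynomial.eq_rootMultiplicity_map (p := φ (c i)) (f := algebraMap kk ℂ)
      (algebraMap kk ℂ).injective α
    rw [h1]
    simp only [φ, order, Polynomial.coe_mapRingHom, Polynomial.map_map]
    rfl
  -- finite sets of algebraic numbers
  have hlift : ∀ S : Finset ℂ, (∀ z ∈ S, IsAlgebraic K z) → ∃ S' : Finset kk,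
      (∀ z : kk, z ∈ S' ↔ algebraMap kk ℂ z ∈ S) ∧
      algebraMap kk ℂ '' (S' : Set kk) = (S : Set ℂ) := by
    intro S hS
    have hmem : ∀ z ∈ S, z ∈ algebraicClosure K ℂ := fun z hz =>
      mem_algebraicClosure_iff'.2 (hS z hz).isIntegral
    have h1 : ∀ z : kk, z ∈ (S.attach.image fun z => (⟨z.1, hmem z.1 z.2⟩ : kk)) ↔
        algebraMap kk ℂ z ∈ S := by
      intro z
      constructor
      · intro hz
        obtain ⟨w, _, hw⟩ := Finset.mem_image.1 hz
        rw [← hw]
        exact w.2
      · intro hz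
        exact Finset.mem_image.2 ⟨⟨z.1, hz⟩, Finset.mem_attach _ _, rfl⟩
    refine ⟨S.attach.image fun z => ⟨z.1, hmem z.1 z.2⟩, h1, ?_⟩
    ext z
    constructor
    · rintro ⟨w, hw, rfl⟩
      exact (h1 w).1 hw
    · intro hz
      exact ⟨⟨z, hmem z hz⟩, (h1 _).2 hz, rfl⟩
  obtain ⟨Γf, -, hΓf⟩ := hlift Γ hΓ
  let Γ' : Set kk := (Γf : Set kk)
  have hΓ' : algebraMap kk ℂ '' Γ' = (Γ : Set ℂ) := hΓf
  obtain ⟨F', -, hF'⟩ := hlift F hF
  choose D' hD' hD'im using fun l => hlift (D l) (hD l)
  have hcard : ∀ I : Finset (Fin M), (I.biUnion D').card = (I.biUnion D).card := by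
    intro I
    rw [← Finset.card_image_of_injective (I.biUnion D') (algebraMap kk ℂ).injective]
    congr 1
    ext z
    simp only [Finset.mem_image, Finset.mem_biUnion]
    constructor
    · rintro ⟨w, ⟨l, hl, hw⟩, rfl⟩
      exact ⟨l, hl, (hD' l w).1 hw⟩
    · rintro ⟨l, hl, hz⟩
      have h1 : z ∈ algebraMap kk ℂ '' (D' l : Set kk) := by
        rw [hD'im]
        exact hz
      obtain ⟨w, hw, hwz⟩ := h1
      exact ⟨w, ⟨l, hl, hw⟩, hwz⟩
  -- the case without degenerate members
  by_cases hne : ∃ l, (D l).Nonempty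
  swap
  · have h0 : ((Finset.univ : Finset (Fin M)).biUnion D).card = 0 := by
      rw [Finset.card_eq_zero, Finset.eq_empty_iff_forall_notMem]
      intro z hz
      obtain ⟨l, _, hl⟩ := Finset.mem_biUnion.1 hz
      exact hne ⟨l, z, hl⟩
    have h1 : ∀ L, M ≤ (Finset.univ : Finset (Fin M)).card + L := by
      intro L
      rw [Finset.card_univ, Fintype.card_fin]
      omega
    refine ⟨fun h => ?_, fun h => ?_⟩
    all_goals
      exfalso
      have := h Finset.univ (h1 _)
      omega
  let Rt : Finset kk := Finset.univ.biUnion D'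
  have hRt : ∀ α : kk, α ∈ Rt ↔ ∃ l, α ∈ D' l := by
    intro α
    simp only [Rt, Finset.mem_biUnion, Finset.mem_univ, true_and]
  let ρt : Fin Rt.card → kk := fun l => (Rt.equivFin.symm l : kk)
  have hρ : ∀ α ∈ Rt, ∃ l, ρt l = α := by
    intro α hα
    refine ⟨Rt.equivFin ⟨α, hα⟩, ?_⟩
    simp [ρt]
  have hρ' : ∀ l, ρt l ∈ Rt := fun l => (Rt.equivFin.symm l).2
  have hc0 : ∀ i, φ (c i) ≠ 0 := by
    intro i h0
    obtain ⟨l, z, hz⟩ := hne
    have h2 : z ∈ algebraMap kk ℂ '' (D' l : Set kk) := by
      rw [hD'im]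
      exact hz
    obtain ⟨α₀, hα₀, rfl⟩ := h2
    have h1 : 0 < order (c i) (algebraMap kk ℂ α₀) := hind.1 l _ hz i
    rw [← hmult, h0, Polynomial.rootMultiplicity_zero] at h1
    exact lt_irrefl _ h1
  obtain ⟨W₀, hW₀, hΓW₀, hρW₀, hnear⟩ := nearR (k := kk) (m := m) (M := Rt.card)
    (fun i => MvPolynomial.map φ (G i)) (fun i => MvPolynomial.map φ (A i))
    (fun i => MvPolynomial.map φ (B i)) (fun i => (R i).map φ) (fun i => φ (c i)) ρt hc0
    (fun l I hI y h1 h2 => by
      by_contra h0
      obtain ⟨l', hl'⟩ := (hRt _).1 (hρ' l)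
      obtain ⟨i, hi, h3⟩ := hpos l' _ ((hD' _ _).1 hl') I hI y ⟨h0, fun i => by
        have h4 := h1 i
        rw [hspec] at h4
        exact h4⟩
      apply h3
      have h4 := h2 i hi
      rw [hspec, hspec] at h4
      exact h4)
    Γ' (Set.toFinite _)
  let W : Finset kk := hW₀.toFinset
  have hW : (W : Set kk) = W₀ := Set.Finite.coe_toFinset hW₀
  -- the core
  have core : ∀ (t : kk), t ∉ Rt → (∃ f : Fin (n.choose 2 + k * 2 ^ k + 1) → Fin M,
      Function.Injective f ∧ ∀ l, ∃ a ∈ D' (f l), ¬ Bad (W : Set kk) t a) →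
      NoAtypical (algebraMap (Algebra.adjoin ℤ (Γ : Set ℂ)) ℂ) K m
        (scaledImage (algebraMap kk ℂ t) G A B R c) := by
    rintro t htRt ⟨f, hf, hp⟩ r Z Ms η hη
    rw [hW] at hp
    choose α hα hbad using hp
    have hαRt : ∀ l, α l ∈ Rt := fun l => (hRt _).2 ⟨_, hα l⟩
    have hαW : ∀ l, α l ∈ W₀ := by
      intro l
      obtain ⟨l', hl'⟩ := hρ _ (hαRt l)
      rw [← hl']
      exact hρW₀ l'
    have htα : ∀ l, t ≠ α l := by
      intro l h
      exact htRt (h ▸ hαRt l)
    choose 𝔭 h𝔭 hmem𝔭 using fun l => exists_max W₀ (hαW l) (htα l) (hbad l)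
    obtain ⟨Λ, hΛ⟩ : ∃ Λ, Λ = Subring.closure (insert t W₀) := ⟨_, rfl⟩
    subst hΛ
    let Λ : Subring kk := Subring.closure (insert t W₀)
    have hWΛ : W₀ ⊆ (Λ : Set kk) := fun z hz => Subring.subset_closure (Set.mem_insert_of_mem _ hz)
    let t' : Λ := ⟨t, Subring.subset_closure (Set.mem_insert _ _)⟩
    let r' : Fin (n.choose 2 + k * 2 ^ k + 1) → Λ := fun l => ⟨α l, hWΛ (hαW l)⟩
    have hmem : ∀ l, t' - r' l ∈ 𝔭 l := fun l => hmem𝔭 l
    obtain ⟨G', A', B', R', c', hG', hA', hB', hR', hc', hunit, hN⟩ := hnear Λ hWΛ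
    have hsub : Function.Injective Λ.subtype := Subtype.val_injective
    have hsub1 : Function.Injective (Polynomial.mapRingHom Λ.subtype) :=
      Polynomial.map_injective _ hsub
    let i1 : Algebra Λ ℂ := ((algebraMap kk ℂ).comp Λ.subtype).toAlgebra
    have hmapΛ : ∀ z : Λ, algebraMap Λ ℂ z = algebraMap kk ℂ (z : kk) := fun z => rfl
    have htower : IsScalarTower Λ kk ℂ := IsScalarTower.of_algebraMap_eq fun z => rfl
    have hinjC : Function.Injective (algebraMap Λ ℂ) := by
      intro a b h
      exact hsub ((algebraMap kk ℂ).injective h)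
    -- values
    have hval : ∀ (P : MvPolynomial (Fin (N + 1)) (Polynomial K))
        (P' : MvPolynomial (Fin (N + 1)) (Polynomial Λ)),
        MvPolynomial.map (Polynomial.mapRingHom Λ.subtype) P' = MvPolynomial.map φ P →
        ∀ y : Fin (N + 1) → ℂ, aeval y (spec t' P') =
          eval₂ (evalAt K (algebraMap kk ℂ t)) y P := by
      intro P P' hP y
      rw [← hspec t P y, ← hP]
      have h1 := map_spec P' _ rfl t'
      change _ = aeval y (spec (t' : kk) _)
      rw [← h1, aeval_def, aeval_def, eval₂_map]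
      rfl
    have hcval : ∀ i, algebraMap Λ ℂ ((c' i).eval t') = evalAt K (algebraMap kk ℂ t) (c i) := by
      intro i
      have h1 : (((c' i).eval t' : Λ) : kk) = (φ (c i)).eval t := by
        rw [← hc' i, Polynomial.eval_map]
        exact (Polynomial.eval₂_at_apply Λ.subtype t').symm
      rw [hmapΛ, h1, ← hev t]
      rfl
    have hintΓ : ∀ z, (algebraMap (Algebra.adjoin ℤ (Γ : Set ℂ)) ℂ).IsIntegralElem z →
        IsIntegral Λ z := by
      intro z hz
      refine int_up hinjC (Γ : Set ℂ) (fun g hg => ?_) hz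
      rw [← hΓ'] at hg
      obtain ⟨g', hg', rfl⟩ := hg
      exact ⟨⟨g', hWΛ (hΓW₀ hg')⟩, rfl⟩
    have hpt : ∀ x ∈ scaledImage (algebraMap kk ℂ t) G A B R c,
        (fun i => x (Sum.inl i)) ∈ Z.locus →
        (fun j => x (Sum.inr j)) ∈ coset Ms η → ∀ S : Finset (Fin n ⊕ Fin k),
        AlgebraicIndependent K (fun i : S => x i) →
        S.card + n + Module.finrank ℤ Ms ≤ r + m := by
      rintro x ⟨hx0, y, hy, ⟨s, hxy⟩, hxy2⟩ hxZ hC S hS
      have hSk : AlgebraicIndependent kk (fun i : S => x i) := hS.extendScalars kk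
      have hSΛ : AlgebraicIndependent Λ (fun i : S => x i) := hSk.restrictScalars hsub
      refine Pool.Agent.TH526.ZL.criterionM (Λ := Λ) (F := kk) (m := m)
        (fun i => spec t' (G' i)) ?_ (fun i => spec t' (A' i)) (fun i => spec t' (B' i)) δ ?_ ?_
        R' ?_ (T := T) ?_ (fun i => (c' i).eval t') 𝔭 h𝔭 ?_ ?_ (fun l => t' - r' l) hmem ?_
        (fun l i => (φ (c i)).rootMultiplicity (α l)) ?_ ?_ ?_ ?_ Z.cls
        (fun i i' => ((Z.mat i).det * (Z.mat i').det).toNat) x s Ms η ?_ ?_
        (fun i j l hi hj => rel_of_locus Z hxZ i j l hi hj) ?_ hx0 ?_ (fun j => (hη j).1)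
        (fun j => hintΓ _ (hη j).2.1) (fun j => hintΓ _ (hη j).2.2) hC.2
        y hy.1 ?_ ?_ ?_ S hSΛ hSk
      · intro i
        obtain ⟨e, he⟩ := hG i
        exact ⟨e, (hom_lift _ (hG' i) hsub1 (he.map φ)).map _⟩
      · intro i
        exact (hom_lift _ (hA' i) hsub1 ((hA i).map φ)).map _
      · intro i
        exact (hom_lift _ (hB' i) hsub1 ((hB i).map φ)).map _
      · intro i
        refine Polynomial.monic_of_injective hsub1 ?_
        rw [hR' i]
        exact (hR i).map _
      · intro i u w h0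
        refine hT i u w fun h1 => h0 ?_
        apply hsub
        have h2 := congrArg (fun P => (P.coeff u).coeff w) (hR' i)
        simp only [Polynomial.coeff_map, Polynomial.coe_mapRingHom, φ] at h2
        rw [h2, h1, map_zero, map_zero]
      · intro l F₁ _ φ₁ hker I hI y' hy0 hyG
        obtain ⟨l', hl'⟩ := hρ _ (hαRt l)
        refine (hN l' (r' l) t' hl'.symm).1 F₁ φ₁ ?_ I hI y' hy0 hyG
        have h1 := hmem l
        rw [← hker, RingHom.mem_ker] at h1
        exact h1
      · intro l i u w h0 h1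
        exact (h𝔭 l).ne_top (Ideal.eq_top_of_isUnit_mem _ h1 (hunit i u w h0))
      · intro l h0
        have h1 : t' - r' l = 0 := hinjC (h0.trans (map_zero _).symm)
        exact htα l (congrArg Subtype.val (sub_eq_zero.1 h1))
      · intro l i
        rw [hmult]
        exact hind.1 (f l) _ ((hD' _ _).1 (hα l)) i
      · intro l i
        obtain ⟨l', hl'⟩ := hρ _ (hαRt l)
        obtain ⟨b, hb1, hb2⟩ := (hN l' (r' l) t' hl'.symm).2 (𝔭 l) (h𝔭 l) (hmem l) i
        refine ⟨1, b, fun h1 => (h𝔭 l).ne_top ((Ideal.eq_top_iff_one _).2 h1), hb1, ?_⟩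
        rw [one_mul, hb2, hl']
      · intro l l' hll i j hij q hq hqT
        rw [hmult, hmult, hmult, hmult]
        exact hind.2.1 (f l) (f l') (fun h => hll (hf h)) _ ((hD' _ _).1 (hα l)) _
          ((hD' _ _).1 (hα l')) i j hij q hq hqT
      · intro s' b hs' hb
        let α' : Fin M → ℂ := fun l =>
          if h : ∃ l', f l' = l then algebraMap kk ℂ (α h.choose) else 0
        have hα' : ∀ l, α' (f l) = algebraMap kk ℂ (α l) := by
          intro l
          have h : ∃ l', f l' = f l := ⟨l, rfl⟩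
          have h1 : h.choose = l := hf h.choose_spec
          simp only [α', dif_pos h, h1]
        refine hind.2.2 (s'.map ⟨f, hf⟩) α' ?_ (by rwa [Finset.card_map]) b ?_
        · intro l hl
          obtain ⟨l', -, rfl⟩ := Finset.mem_map.1 hl
          change α' (f l') ∈ D (f l')
          rw [hα' l']
          exact (hD' _ _).1 (hα l')
        · intro l hl
          obtain ⟨l', hl', rfl⟩ := Finset.mem_map.1 hl
          change ∑ j, b j * (order (c (Sum.inr j)) (α' (f l')) : ℤ) = 0
          rw [hα' l', ← hb l' hl']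
          refine Finset.sum_congr rfl fun j _ => ?_
          rw [hmult]
      · intro i i'
        have := mul_pos (Z.det_pos i) (Z.det_pos i')
        omega
      · intro i hi
        obtain ⟨z, hz⟩ := hxZ
        have e3 : x (Sum.inl i) = Z.const i := (hz i).1 hi
        rw [e3]
        rcases Z.allowed i with ⟨τ, hτ, hc⟩ | h
        · rw [hc]
          exact (singular_modulus_integral τ hτ).tower_top
        · exact hintΓ _ h
      · intro i
        have h1 := (hxy i).1
        rw [valueAt] at h1
        have h2 : (R' i).map (Polynomial.mapRingHom Λ.subtype) = (R i).map φ := hR' i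
        have h3 : ((Polynomial.aeval (x (Sum.inl i)) : Polynomial kk →ₐ[kk] ℂ).toRingHom).comp φ =
            (Polynomial.aeval (x (Sum.inl i)) : Polynomial K →ₐ[K] ℂ).toRingHom := by
          ext z
          · simp [φ]
          · simp [φ]
        have h4 : ((Polynomial.aeval (x (Sum.inl i)) : Polynomial kk →ₐ[kk] ℂ).toRingHom).comp
            (Polynomial.mapRingHom Λ.subtype) =
            (Polynomial.aeval (x (Sum.inl i)) : Polynomial Λ →ₐ[Λ] ℂ).toRingHom := by
          refine Polynomial.ringHom_ext (fun a => ?_) ?_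
          · simp only [RingHom.comp_apply, Polynomial.coe_mapRingHom, Polynomial.map_C,
              AlgHom.toRingHom_eq_coe, RingHom.coe_coe, Polynomial.aeval_C]
            rfl
          · simp
        rw [← h3, ← Polynomial.eval₂_map, ← h2, Polynomial.eval₂_map, h4] at h1
        exact h1
      · intro j
        have h1 : IsIntegral Λ (η j) := hintΓ _ (hη j).2.1
        have h2 : IsIntegral kk (η j) := h1.tower_top
        have h3 : IsAlgebraic K (η j) := h2.isAlgebraic.restrictScalars K
        exact ⟨⟨η j, mem_algebraicClosure_iff.2 h3⟩, rfl⟩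
      · intro i
        rw [hval _ _ (hG' i)]
        exact hy.2 i
      · intro i
        rw [hval _ _ (hA' _), hval _ _ (hB' _), hcval]
        exact (hxy i).2
      · intro j
        rw [hval _ _ (hA' _), hval _ _ (hB' _), hcval]
        exact hxy2 j
    refine ⟨?_, hpt⟩
    intro W' hW' hcl' hprime
    obtain ⟨w, hw⟩ := nonempty_of_prime hprime
    obtain ⟨x, hxW, hx0, S, hS, hdim⟩ := Pool.Agent.W282.SI.generic_dim' K W' hprime
      (β := Fin k) (fun j => X (Sum.inr j)) (by
        intro j hj
        rw [mem_idealOf] at hj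
        have h2 := hj w hw
        rw [eval_X] at h2
        exact (hW' hw).1.1 j h2)
    have hxA : x ∈ W' := hcl' x hxW fun j => by
      have h2 := hx0 j
      rwa [eval_X] at h2
    have h2 := hpt x (hW' hxA).1 (hW' hxA).2.1 (hW' hxA).2.2 S hS
    calc zdim W' + (n : Cardinal) + (Module.finrank ℤ Ms : Cardinal) ≤
          (S.card : Cardinal) + (n : Cardinal) + (Module.finrank ℤ Ms : Cardinal) := by gcongr
      _ = ((S.card + n + Module.finrank ℤ Ms : ℕ) : Cardinal) := by push_cast; rfl
      _ ≤ ((r + m : ℕ) : Cardinal) := by exact_mod_cast h2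
      _ = (r : Cardinal) + (m : Cardinal) := by push_cast; rfl
  -- the parameters lie in the algebraic closure
  have hfield : ∀ t ∈ Subfield.closure (F : Set ℂ), ∃ t' : kk,
      t' ∈ Subfield.closure (F' : Set kk) ∧ algebraMap kk ℂ t' = t := by
    intro t ht
    rw [← hF', ← RingHom.map_field_closure] at ht
    exact Subfield.mem_map.1 ht
  have hring : ∀ t ∈ Subring.closure (F : Set ℂ), ∃ t' : kk,
      t' ∈ Subring.closure (F' : Set kk) ∧ algebraMap kk ℂ t' = t := by
    intro t ht
    rw [← hF', ← RingHom.map_closure] at ht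
    exact Subring.mem_map.1 ht
  let E : Set kk := {t | t ∉ Rt ∧
    ¬ NoAtypical (algebraMap (Algebra.adjoin ℤ (Γ : Set ℂ)) ℂ) K m
      (scaledImage (algebraMap kk ℂ t) G A B R c)}
  refine ⟨fun hM => ?_, fun hM => ?_⟩
  · have h1 := finite_field (L := n.choose 2 + k * 2 ^ k) W F' D'
      (fun I hI => (hcard I).symm ▸ hM I hI) E (fun t ht h => ht.2 (core t ht.1 h))
    refine ((h1.union Rt.finite_toSet).image (algebraMap kk ℂ)).subset ?_
    rintro t ⟨ht, ht'⟩
    obtain ⟨t', ht1, rfl⟩ := hfield t ht
    by_cases h2 : t' ∈ Rt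
    · exact ⟨t', Or.inr h2, rfl⟩
    · exact ⟨t', Or.inl ⟨ht1, h2, ht'⟩, rfl⟩
  · have h1 := finite_ring (L := n.choose 2 + k * 2 ^ k) W F' D'
      (fun I hI => (hcard I).symm ▸ hM I hI) E (fun t ht h => ht.2 (core t ht.1 h))
    refine ((h1.union Rt.finite_toSet).image (algebraMap kk ℂ)).subset ?_
    rintro t ⟨ht, ht'⟩
    obtain ⟨t', ht1, rfl⟩ := hring t ht
    by_cases h2 : t' ∈ Rt
    · exact ⟨t', Or.inr h2, rfl⟩
    · exact ⟨t', Or.inl ⟨ht1, h2, ht'⟩, rfl⟩

end Pool.Agent.Results.MP_a325a5_ag.FinitelyGeneratedFields
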