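import Pool.Agent.Y92.ZX.MixAll

/-!
# MP_a325a5_ag: Zilber-Pink for all curves in `Y(1)^n × G_m^k` with good reduction at a few large places

`Y(1)^n × G_m^k` is the set of all `x ∈ ℂ^(n+k)` whose last `k` coordinates are not zero, where
`Y(1)` is identified with `ℂ` by the elliptic modular function `jj = j = E₄³ / Δ`. Its special
subvarieties are the products `Z × T`, where `Z` is a special subvariety of `Y(1)^n` and `T` is a
torsion coset of `G_m^k`. Here `Z` is given by a `SpecialVariety`: its points are the points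
with `x_i = const_i` for the constant coordinates and `x_i = j (g_i z_l)` for the coordinates of
class `l`, with `z_1, …, z_r` free in the upper half plane and `g_i` a fixed integral matrix of
positive determinant. In the definition of special subvarieties the constants are values of `j` at CM
points. We allow also all constants which are integral over the ring generated by a given set `Γ`;
in the theorem `Γ` is the set of all elements of the number field which are integral at the given
places. `T` is given by a group `M` of exponent vectors and a point `η` of finite order: `T` is the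
set of all `u` with `u ^ a = η ^ a` for all `a ∈ M`. The dimension of `Z × T` is `r + (k - rank M)`,
so its codimension is `n + rank M - r`.

**The curves.** Let `L` be a number field and `v` a prime of `L`. A subscheme `V` of `(P¹)^(n+k)` over
`𝓞 L` is given by forms `F_t` with coefficients in `𝓞 L` in the homogeneous coordinates
`(X_1, Z_1), …, (X_{n+k}, Z_{n+k})`: the variables are `(i, false) = X_i` and `(i, true) = Z_i`, and
`x_i = X_i / Z_i` is the `i`-th coordinate. We say that `V` has integral reduction in general position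
at `v`, of degree at most `d` (`IntegralReduction v d F`) if
* the reduction `V̄` of `V` at `v` is (geometrically) integral: in the affine charts where all `Z_i = 1`
  and where `X_a = 1`, `Z_i = 1` for `i ≠ a` the ideal of `V̄` is a prime ideal, over all
  algebraically closed fields which contain `𝓞 L / v`, and the coordinates `x_i` are not constant
  on `V̄`;
* `V̄` is in general position: for `i ≠ j` some form
  `∑_{u ≤ a, v ≤ b} g_{uv} X_i ^ u Z_i ^ (a - u) X_j ^ v Z_j ^ (b - v)` with `a, b ≤ d` is in the ideal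
  generated by the `F_t`, where `g_{00}, g_{a0}, g_{0b}, g_{ab}` are not in `v`, and the reduction of
  the form is not divisible by a form `X_i - c Z_i`. So the zeros and poles of `x_i` on
  `V̄` are different from those of `x_j`, and `V̄` is a curve (for `n + k ≥ 2`) which is covered by
  the charts above.
The reduction may be singular, the genus of `V` and the degrees of the `F_t` are arbitrary.

**Theorem.** Let `n`, `k`, `d`, `W` and `K` with `K ≥ 3` and `K ≥ k (k - 1)` be given. There is a
number `D` such that the following holds for each number field `L ⊂ ℂ`, all primes `v_1, …, v_K` of `L`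
over different prime numbers `p_1, …, p_K > D`, `v_i` unramified over `p_i`, each `V` in
`(P¹)^(n+k)` which has integral reduction in general position at each `v_i`, of degree at most `d`,
and all `lam_1, …, lam_n, nu_1, …, nu_k` in `L` with

* `v_i (lam_j) = - w_ij e_i`, where `e_i > 0` and `1 ≤ w_ij ≤ W`,
* `v_i (nu_l) = f_i c_il`, where `f_i > 0`, `|c_il| ≤ W` and `c` is `Independent`
  (for `k ≤ 1` this is no condition, for `k = 2` it means that all `c_il` are different from zero).

Let `C ⊂ Y(1)^n × G_m^k` be the set of all `(lam_1 y_1, …, lam_n y_n, nu_1 y_{n+1}, …, nu_k y_{n+k})`,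
`y ∈ V ∩ ℂ^(n+k)`, `y_{n+l} ≠ 0` for `l ≤ k`. Then
* there are only finitely many points of `C` on special subvarieties of `Y(1)^n × G_m^k` of
  codimension at least two,
* each proper special subvariety of `Y(1)^n × G_m^k` contains only finitely many points of `C`.

So the Zilber-Pink conjecture holds for all curves `C` over number fields in the mixed Shimura
variety `Y(1)^n × G_m^k` which have good reduction in this sense at `K` unramified places above prime
numbers which are large in terms of `n`, `k`, `d`, `W` and `K` only; the bound `D` is uniform in `C`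
and `L`. For `k = 1` there is no condition on `nu ≠ 0`. For example, for `d = 1` and `W = 1`: there is
a number `D`, depending on `n` only, such that the curve

  `{(lam_1 (t - b_1) / (t - c_1), …, lam_n (t - b_n) / (t - c_n), nu (t - b_{n+1}) / (t - c_{n+1}))}`

in `Y(1)^n × G_m` (`b_i`, `c_i` integers, `lam_i`, `nu ≠ 0` rational) satisfies the Zilber-Pink
conjecture if for some three prime numbers `p > D` the `2 n + 2` integers `b_i`, `c_i` are pairwise
incongruent modulo `p` and the valuations at `p` of the `lam_i` are equal and negative.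
-/

namespace Pool.Agent.Results.MP_a325a5_ag.MixedCuspidalReduction

open H294ZP UpperHalfPlane IsDedekindDomain NumberField

/-- A special subvariety of dimension `r` of `Y(1)^n`. The constant coordinates are those with
`cls i = none`. The allowed constants are the singular moduli and the numbers which are integral
over the ring generated by `Γ`. -/
structure SpecialVariety (Γ : Set ℂ) (n r : ℕ) where
  cls : Fin n → Option (Fin r)
  surj : ∀ l : Fin r, ∃ i, cls i = some l
  mat : Fin n → Matrix (Fin 2) (Fin 2) ℤ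
  det_pos : ∀ i, 0 < (mat i).det
  const : Fin n → ℂ
  allowed : ∀ i, (∃ τ : ℍ, IsCM τ ∧ const i = jj τ) ∨ IsIntegral (Algebra.adjoin ℤ Γ) (const i)

/-- The points of a special subvariety of `Y(1)^n`. -/
def SpecialVariety.locus {Γ : Set ℂ} {n r : ℕ} (Z : SpecialVariety Γ n r) : Set (Fin n → ℂ) :=
  {x | ∃ z : Fin r → ℍ, ∀ i, (Z.cls i = none → x i = Z.const i) ∧
    ∀ l, Z.cls i = some l → ∃ w : ℍ,
      (w : ℂ) * (Z.mat i 1 0 * z l + Z.mat i 1 1) = Z.mat i 0 0 * z l + Z.mat i 0 1 ∧
      x i = jj w}

/-- The points of the special subvariety `Z × T` of `Y(1)^n × G_m^k`, where `T` is the set of all `u`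
with `u ^ a = η ^ a` for all `a ∈ M`. -/
def special {Γ : Set ℂ} {n k r : ℕ} (Z : SpecialVariety Γ n r) (M : Submodule ℤ (Fin k → ℤ))
    (η : Fin k → ℂ) : Set (Fin (n + k) → ℂ) :=
  {x | (∀ l, x (Fin.natAdd n l) ≠ 0) ∧ (fun j => x (Fin.castAdd k j)) ∈ Z.locus ∧
    ∀ a ∈ M, ∏ l, x (Fin.natAdd n l) ^ a l = ∏ l, η l ^ a l}

/-- The homogeneous coordinates of the point with affine coordinates `y` in the chart `c` of
`(P¹)^q`. In the chart `none` they are `X_i = y_i`, `Z_i = 1` for all `i`, in the chart `some a`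
they are `X_a = 1`, `Z_a = y_a`, and `X_i = y_i`, `Z_i = 1` for `i ≠ a`. -/
def coord {A : Type} [CommRing A] {q : ℕ} (c : Option (Fin q)) (y : Fin q → A)
    (s : Fin q × Bool) : A :=
  if c = some s.1 then (if s.2 then y s.1 else 1) else (if s.2 then 1 else y s.1)

/-- `F` is homogeneous in each pair of variables `(X_i, Z_i) = ((i, false), (i, true))`. -/
def Multihomogeneous {A : Type} [CommRing A] {q : ℕ} (F : MvPolynomial (Fin q × Bool) A) : Prop :=
  ∃ δ : Fin q → ℕ, ∀ m ∈ F.support, ∀ i, m (i, false) + m (i, true) = δ i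

/-- The form `∑ g_{uv} X_i ^ u Z_i ^ (a - u) X_j ^ v Z_j ^ (b - v)`. -/
noncomputable def pairForm {A : Type} [CommRing A] {q : ℕ} (i j : Fin q) (a b : ℕ)
    (g : ℕ → ℕ → A) : MvPolynomial (Fin q × Bool) A :=
  ∑ u ∈ Finset.range (a + 1), ∑ v ∈ Finset.range (b + 1),
    MvPolynomial.C (g u v) * MvPolynomial.X (i, false) ^ u * MvPolynomial.X (i, true) ^ (a - u) *
      MvPolynomial.X (j, false) ^ v * MvPolynomial.X (j, true) ^ (b - v)

/-- The ideal in the chart `c` of the reduction of the scheme defined by the `F_t`, where `π` is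
the reduction of the coefficients. -/
noncomputable def chartIdeal {A k : Type} [CommRing A] [Field k] {q : ℕ} {κ : Type} (π : A →+* k)
    (F : κ → MvPolynomial (Fin q × Bool) A) (c : Option (Fin q)) :
    Ideal (MvPolynomial (Fin q) k) :=
  Ideal.span (Set.range fun t =>
    MvPolynomial.eval₂ (MvPolynomial.C.comp π) (coord c MvPolynomial.X) (F t))

/-- The scheme defined by the forms `F_t` has integral reduction in general position at `v`, of
degree at most `d`. -/
structure IntegralReduction {L : Type} [Field L] [NumberField L] (v : HeightOneSpectrum (𝓞 L))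
    {q : ℕ} (d : ℕ) {κ : Type} (F : κ → MvPolynomial (Fin q × Bool) (𝓞 L)) : Prop where
  form : ∀ t, Multihomogeneous (F t)
  prime : ∀ (k : Type) [Field k] [IsAlgClosed k] (π : 𝓞 L →+* k), RingHom.ker π = v.asIdeal →
    ∀ c, (chartIdeal π F c).IsPrime
  nonconstant : ∀ (k : Type) [Field k] [IsAlgClosed k] (π : 𝓞 L →+* k),
    RingHom.ker π = v.asIdeal → ∀ (i : Fin q) (c : k),
      MvPolynomial.X i - MvPolynomial.C c ∉ chartIdeal π F none
  general : ∀ i j : Fin q, i ≠ j → ∃ (a b : ℕ) (g : ℕ → ℕ → 𝓞 L), a ≤ d ∧ b ≤ d ∧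
    g 0 0 ∉ v.asIdeal ∧ g a 0 ∉ v.asIdeal ∧ g 0 b ∉ v.asIdeal ∧ g a b ∉ v.asIdeal ∧
    (∀ (k : Type) [Field k] [IsAlgClosed k] (π : 𝓞 L →+* k), RingHom.ker π = v.asIdeal →
      ∀ c : k, ∃ v' ≤ b, ∑ u ∈ Finset.range (a + 1), π (g u v') * c ^ u ≠ 0) ∧
    pairForm i j a b g ∈ Ideal.span (Set.range F)

/-- The set `C` of all `(lam y', nu y'')`, `(y', y'')` a zero in `ℂ^n × ℂ^k` of all `F_t`. -/
def scaledCurve {L : Type} [Field L] [NumberField L] (σ : L →+* ℂ) {n k : ℕ} {κ : Type}
    (F : κ → MvPolynomial (Fin (n + k) × Bool) (𝓞 L)) (lam : Fin n → L) (nu : Fin k → L) :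
    Set (Fin (n + k) → ℂ) :=
  {x | ∃ y : Fin (n + k) → ℂ, (∀ t, MvPolynomial.eval₂ (σ.comp (algebraMap (𝓞 L) L))
    (coord none y) (F t) = 0) ∧
    (∀ j, x (Fin.castAdd k j) = σ (lam j) * y (Fin.castAdd k j)) ∧
    ∀ l, x (Fin.natAdd n l) = σ (nu l) * y (Fin.natAdd n l)}

/-- The elements of `L` which are integral at all places `v_i`. -/
def integralAt {L : Type} [Field L] [NumberField L] (σ : L →+* ℂ) {K : ℕ}
    (v : Fin K → HeightOneSpectrum (𝓞 L)) : Set ℂ :=
  {z | ∃ x : L, (∀ i, (v i).valuation L x ≤ 1) ∧ σ x = z}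

/-- The conditions on the scaling factors at the place `v`: `v (lam_j) = - w_j e`,
`v (nu_l) = f c_l`, `e, f > 0`, `1 ≤ w_j ≤ W`, `|c_l| ≤ W`. -/
structure ScalingAt {L : Type} [Field L] [NumberField L] (v : HeightOneSpectrum (𝓞 L)) {n k : ℕ}
    (W : ℕ) (lam : Fin n → L) (nu : Fin k → L) (e f : ℕ) (w : Fin n → ℕ) (c : Fin k → ℤ) :
    Prop where
  e_pos : 0 < e
  f_pos : 0 < f
  modular : ∀ j, 0 < w j ∧ w j ≤ W ∧ v.valuation L (lam j) = WithZero.exp ((w j * e : ℕ) : ℤ)
  torus : ∀ l, |c l| ≤ W ∧ v.valuation L (nu l) = WithZero.exp (-((f : ℤ) * c l))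

/-- For each set `S` of at least `k - 1` indices and each `l`, the vectors `(c_il')_{l' ≠ l}`,
`i ∈ S`, span `ℚ^(k-1)`. -/
def Independent {K k : ℕ} (c : Fin K → Fin k → ℤ) : Prop :=
  ∀ S : Finset (Fin K), k ≤ S.card + 1 → ∀ (l : Fin k) (a : Fin k → ℤ), a l = 0 →
    (∀ i ∈ S, ∑ l', a l' * c i l' = 0) → a = 0

/-- Special subvarieties in the form used in the proof. -/
def SpecialVariety.toSV {Γ : Set ℂ} {n r : ℕ} (Z : SpecialVariety Γ n r) :
    Pool.Agent.Y226.ZM.SV Γ n r where
  cls := Z.cls
  mat := Z.mat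
  det_pos := Z.det_pos
  const := Z.const
  int := fun i => by
    rcases Z.allowed i with ⟨τ, hτ, h⟩ | h
    · rw [h]
      exact (singular_modulus_integral τ hτ).tower_top
    · exact h

/-- The Zilber-Pink conjecture for all curves in `Y(1)^n × G_m^k` with integral reduction in general
position at a few large places. -/
theorem result (n k d W K : ℕ) (hK3 : 3 ≤ K) (hK : k * (k - 1) ≤ K) : ∃ D : ℕ,
    ∀ (L : Type) [Field L] [NumberField L] (σ : L →+* ℂ) (v : Fin K → HeightOneSpectrum (𝓞 L))
    (p : Fin K → ℕ), Function.Injective p → (∀ i, (p i).Prime ∧ D < p i ∧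
      (p i : 𝓞 L) ∈ (v i).asIdeal ∧ (p i : 𝓞 L) ∉ (v i).asIdeal ^ 2) →
    ∀ (κ : Type) (F : κ → MvPolynomial (Fin (n + k) × Bool) (𝓞 L)),
    (∀ i, IntegralReduction (v i) d F) →
    ∀ (lam : Fin n → L) (nu : Fin k → L) (e f : Fin K → ℕ) (w : Fin K → Fin n → ℕ)
      (c : Fin K → Fin k → ℤ), Independent c →
    (∀ i, ScalingAt (v i) W lam nu (e i) (f i) (w i) (c i)) →
    {x | x ∈ scaledCurve σ F lam nu ∧ ∃ (r : ℕ) (Z : SpecialVariety (integralAt σ v) n r)
      (M : Submodule ℤ (Fin k → ℤ)) (η : Fin k → ℂ), (∀ l, ∃ o : ℕ, 0 < o ∧ η l ^ o = 1) ∧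
      r + 2 ≤ n + Module.finrank ℤ M ∧ x ∈ special Z M η}.Finite ∧
    ∀ (r : ℕ) (Z : SpecialVariety (integralAt σ v) n r) (M : Submodule ℤ (Fin k → ℤ))
      (η : Fin k → ℂ), (∀ l, ∃ o : ℕ, 0 < o ∧ η l ^ o = 1) → r + 1 ≤ n + Module.finrank ℤ M →
      {x | x ∈ scaledCurve σ F lam nu ∧ x ∈ special Z M η}.Finite := by
  obtain ⟨D, hD⟩ := Pool.Agent.Y92.ZX.mixed_uni_all n k d W K hK3 hK
  refine ⟨D, fun L _ _ σ v p hpi hp κ F hF lam nu e f w c hc hS => ?_⟩
  obtain ⟨h1, h2⟩ := hD L σ v p hpi hp κ F
    (fun i => ⟨(hF i).form, (hF i).prime, (hF i).nonconstant, (hF i).general⟩) lam nu e f w c hc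
    (fun i => ⟨(hS i).e_pos, (hS i).f_pos, (hS i).modular, (hS i).torus⟩)
  refine ⟨h1.subset ?_, fun r Z M η hη hr => (h2 r Z.toSV M η hη hr).subset ?_⟩
  · rintro x ⟨⟨y, hy, hx⟩, r, Z, M, η, hη, hr, h0, hZ, hM⟩
    exact ⟨⟨y, hy, hx⟩, h0, r, Z.toSV, M, η, hη, hr, hZ, hM⟩
  · rintro x ⟨⟨y, hy, hx⟩, h0, hZ, hM⟩
    exact ⟨⟨y, hy, hx⟩, h0, hZ, hM⟩

end Pool.Agent.Results.MP_a325a5_ag.MixedCuspidalReduction
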