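import Pool.Agent.Y645.MX.Ne3
import Pool.Agent.W282.LF.Top

/-!
# MP_a325a5_ag: Zilber-Pink for a positive proportion of the subvarieties of the mixed Shimura
variety `ℰ^q × Y(1)^n × G_m^k` which are pull-backs of an arbitrary variety under rational maps

`X = ℰ^q × Y(1)^n × G_m^k` is the mixed Shimura variety of dimension `n + 1 + q + k` which
parametrizes elliptic curves `E` with `q` points `P_1, …, P_q`, `n` numbers `x_1, …, x_n` (the
`j`-invariants of `n` more elliptic curves) and `k` nonzero numbers `u_1, …, u_k`. Here `ℰ` is the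
universal elliptic curve over `Y(1)`, and `ℰ^q` its `q`-th fibre power. We use Weierstrass equations
`E : y² = x³ + A x + B`, so `X` is the quotient of the set of all `(A, B, P, x, u)` with
`4 A³ + 27 B² ≠ 0` (`Datum`) by the action of `G_m` with weights `4` and `6` on `A` and `B` and `2` on
the `x`-coordinates `X_l = x(P_l)` of the points.

We consider rational maps `φ_c = (N_1 / D_1, …, N_m / D_m) : X ⇢ ℂ^m` in all the coordinates: the
numerators and denominators are polynomials in `A, B, X_1, …, X_q, x_1, …, x_n, u_1, …, u_k`,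
isobaric of weight `12 S` in `A, B, X_1, …, X_q`, of degree at most `R` in each of the `X_l` and at
most `D_y ≥ 1` in the other coordinates `y = x_i, u_w`, and the vector `c` of all their coefficients
is a vector of integers. (If `P_l` is the origin, the value is the coefficient of `X_l^R`.) The
numbers `R = 6 b ≥ q` and `S ≥ 1, q b` (such that the product of the `X_l^R` has weight at most
`12 S`) and `m` are arbitrary.

Let `V ⊆ ℂ^m` be any irreducible subvariety over the complex numbers, of any dimension `d`. Let `X_c`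
be the closed subset of `X` of all points at which the multihomogenizations of all polynomials in the
ideal of `V` vanish, evaluated at the `N_j` and `D_j` (`OnPullback`). It contains the closure of the
pull-back `φ_c⁻¹(V)`. For `V = {0}` it is the complete intersection `N_1 = … = N_m = 0` in `X`.

The special subvarieties of `X` are as follows. The image of a special subvariety in `Y(1)^(n+1)`
is a special subvariety `Z` of dimension `r` (`H294ZP.SpecialDatum (n + 1) r`): `Z.locus` is the set
of the points with the coordinates `j (τ_i)` (`τ_i` a fixed CM point) for the constant coordinates, and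
`j (g_i z_l)` for the coordinates of class `l`, where `z_1, …, z_r` are free in the upper half plane
and `g_i` is a fixed integral matrix of positive determinant. And the special subvariety is given in
the semiabelian scheme `ℰ^q × G_m^k` over `Z` by a module of relations between the points
`P_1, …, P_q`, up to torsion, over the ring of endomorphisms of `E` (over `Z`; this is `ℤ` or, if
`E` is constant with complex multiplication on `Z`, an order in an imaginary quadratic field), and
by a group of multiplicative relations between the `u_w`, up to roots of unity. The codimension is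
`(n + 1 - r) + ρ₁ + ρ₂`, where `ρ₁` and `ρ₂` are the ranks of the module and of the group. So
`InSpecial z ρ` says that the point `z` is in a special subvariety of codimension at least `ρ`.

Theorem: for a positive proportion of the vectors `c` (in every box, in every residue class)

* every irreducible closed subset `W` of the intersection of `X_c` with the union of all special
  subvarieties of codimension at least `ρ` has dimension at most
  `dim V + (n + 1 + q + k) - m - ρ`, for all `ρ` (`NoAtypical`; the condition is for the cone over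
  `W` in the space of all `(A, B, X, x, u)`, which has dimension `dim W + 1`). For `ρ = 0` it follows
  that every component of `X_c` has at most the expected dimension
  `dim X - (m - dim V)`, and the components of the closure of `φ_c⁻¹(V)` have exactly this dimension.
  So there are no atypical intersections at all:
  `dim W ≤ dim X_c + dim Z' - dim X` for all special subvarieties `Z'` and `W ⊆ X_c ∩ Z'`;
* `X_c` does not meet any special subvariety of codimension larger than
  `dim V + (n + 1 + q + k) - m` (`AvoidsSpecial`);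
* `φ_c⁻¹(V)` is not empty, if `m ≤ dim X = n + 1 + q + k` (`Meets`), so that it is a closed
  subvariety of codimension `m - dim V` of the domain of definition of `φ_c`.
-/

set_option autoImplicit false

namespace Pool.Agent.Results.MP_a325a5_ag.RandomSubvarieties

open H294ZP MvPolynomial Pool.Agent.W282.ZP

/-- The curve `y² = x³ + a x + b` over the complex numbers. -/
abbrev curve (a b : ℂ) : WeierstrassCurve.Affine ℂ := ⟨0, 0, 0, a, b⟩

/-- The `x`-coordinate of a point of the curve (`0` for the origin). -/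
def xCoord {a b : ℂ} : (curve a b).Point → ℂ
  | .zero => 0
  | .some x _ _ => x

/-- The map `φ` of the points of the curve `y² = x³ + a x + b` to itself is given on the
`x`-coordinates by a rational function `u / w` with `u(x) / w(x) ~ x / c²` for `x → ∞`. -/
def ActsByRational {a b : ℂ} (c : ℂ) (φ : (curve a b).Point → (curve a b).Point) : Prop :=
  ∃ u w : Polynomial ℂ, w ≠ 0 ∧ u.natDegree = w.natDegree + 1 ∧
    w.leadingCoeff = c ^ 2 * u.leadingCoeff ∧
    ∀ P : (curve a b).Point, P ≠ 0 → w.eval (xCoord P) ≠ 0 →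
      φ P ≠ 0 ∧ xCoord (φ P) * w.eval (xCoord P) = u.eval (xCoord P)

/-- A ring of endomorphisms of the curve `y² = x³ + a x + b`: a ring `O` of complex numbers which
acts on the group of points. For an endomorphism which is multiplication by `λ` on the tangent space
at the origin the number `λ` is an integer or an imaginary quadratic integer, in particular it
satisfies an equation `λ² - T λ + N = 0` with integers `T, N`, and if it is not an integer, the
`x`-coordinate of the image of a point is a rational function `u / w` of the `x`-coordinate of the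
point, with `u(x) / w(x) ~ x / λ²` for `x → ∞`. (The integers in `O` act by multiplication, as `act`
is a homomorphism of rings.) -/
structure EndRing (a b : ℂ) where
  /-- the ring -/
  O : Subring ℂ
  /-- its action on the points -/
  act : O →+* AddMonoid.End (curve a b).Point
  quad : ∀ c : O, ∃ T N : ℤ, (c : ℂ) ^ 2 - T * c + N = 0
  rat : ∀ c : O, (∀ n : ℤ, (c : ℂ) ≠ n) → ActsByRational c (act c)

/-- The linear combination `∑ c_l (P_l)` of points with endomorphisms `c_l` as coefficients. -/
noncomputable def EndRing.comb {a b : ℂ} (E : EndRing a b) {q : ℕ} (c : Fin q → E.O)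
    (P : Fin q → (curve a b).Point) : (curve a b).Point :=
  ∑ l, E.act (c l) (P l)

/-- The coefficients `c_1, …, c_q` are a relation between the points `P_1, …, P_q` up to torsion:
the point `∑ c_l (P_l)` is a torsion point. -/
def EndRing.Relation {a b : ℂ} (E : EndRing a b) {q : ℕ} (c : Fin q → E.O)
    (P : Fin q → (curve a b).Point) : Prop :=
  ∃ t : ℕ, 0 < t ∧ t • E.comb c P = 0

/-- The point `(P_1, …, P_q)` of the `q`-th power of the curve is in an algebraic subgroup of
codimension at least `ρ`: the module of the relations between the `P_l` over some ring of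
endomorphisms of the curve has rank at least `ρ`, it has `ρ` linearly independent elements. -/
def InSubgroup {a b : ℂ} {q : ℕ} (P : Fin q → (curve a b).Point) (ρ : ℕ) : Prop :=
  ∃ (E : EndRing a b) (c : Fin ρ → Fin q → E.O),
    LinearIndependent ℂ (fun i l => (c i l : ℂ)) ∧ ∀ i, E.Relation (c i) P

/-- The point `u` of `G_m^k` is in an algebraic subgroup of codimension at least `ρ`: there are `ρ`
linearly independent relations `∏ u_w^(a_w) = root of unity`. -/
def InSubtorus {k : ℕ} (u : Fin k → ℂ) (ρ : ℕ) : Prop :=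
  ∃ a : Fin ρ → Fin k → ℤ, LinearIndependent ℤ a ∧
    ∀ i, ∃ t : ℕ, 0 < t ∧ (∏ w, u w ^ a i w) ^ t = 1

/-- The data which represent a point of `ℰ^q × Y(1)^n × G_m^k`: an elliptic curve
`y² = x³ + A x + B`, points `P_1, …, P_q` of this curve, numbers `x_1, …, x_n`, and nonzero numbers
`u_1, …, u_k`. -/
structure Datum (n q k : ℕ) where
  /-- the coefficient `A` -/
  A : ℂ
  /-- the coefficient `B` -/
  B : ℂ
  smooth : 4 * A ^ 3 + 27 * B ^ 2 ≠ 0
  /-- the points of the elliptic curve -/
  P : Fin q → (curve A B).Point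
  /-- the coordinates in `Y(1)^n` -/
  x : Fin n → ℂ
  /-- the coordinates in `G_m^k` -/
  u : Fin k → ℂ
  unit : ∀ w, u w ≠ 0

variable {n q k m S R : ℕ} {D : Fin n ⊕ Fin k → ℕ}

/-- The coordinates of the point in `Y(1)^(n+1)`: the `j`-invariant
`1728 · 4 A³ / (4 A³ + 27 B²)` of the elliptic curve, and `x_1, …, x_n`. -/
noncomputable def Datum.j (z : Datum n q k) : Fin (n + 1) → ℂ :=
  Fin.cons (6912 * z.A ^ 3 / (4 * z.A ^ 3 + 27 * z.B ^ 2)) z.x

/-- The coordinates `A, B`, `x(P_l)`, `x_i` and `u_w`. -/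
noncomputable def Datum.coord (z : Datum n q k) : Fin 2 ⊕ (Fin q ⊕ (Fin n ⊕ Fin k)) → ℂ :=
  Sum.elim ![z.A, z.B] (Sum.elim (fun l => xCoord (z.P l)) (Sum.elim z.x z.u))

open Classical in
/-- Homogeneous coordinates of `x(P_l)`: `(1, 0)` if `P_l` is the origin, and `(x(P_l), 1)` for the
other points. -/
noncomputable def Datum.hom (z : Datum n q k) (l : Fin q) : ℂ × ℂ :=
  if z.P l = 0 then (1, 0) else (xCoord (z.P l), 1)

/-- The point is in a special subvariety of codimension at least `ρ` of `ℰ^q × Y(1)^n × G_m^k`: its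
image in `Y(1)^(n+1)` is in a special subvariety `Z` of dimension `r`, the points `P_l` are in an
algebraic subgroup of `E^q` of codimension `ρ₁`, the numbers `u_w` are in an algebraic subgroup of
`G_m^k` of codimension `ρ₂`, and `(n + 1 - r) + ρ₁ + ρ₂ ≥ ρ`. -/
def InSpecial (z : Datum n q k) (ρ : ℕ) : Prop :=
  ∃ (r : ℕ) (Z : SpecialDatum (n + 1) r) (ρ₁ ρ₂ : ℕ), ρ + r ≤ n + 1 + ρ₁ + ρ₂ ∧
    z.j ∈ Z.locus ∧ InSubgroup z.P ρ₁ ∧ InSubtorus z.u ρ₂

/-- The exponents `(a, b, h, g)` of the monomials `A^a B^b ∏ X_l^(h_l) ∏ y^(g_y)` of weight `12 S`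
(the weights of `A`, `B`, `X_l` are `4`, `6`, `2`), of degree at most `R` in each `X_l` and at most
`D_y` in the other coordinates `y`. -/
abbrev Mono (q S R : ℕ) {n k : ℕ} (D : Fin n ⊕ Fin k → ℕ) : Type :=
  {x : Fin (3 * S + 1) × Fin (2 * S + 1) × (Fin q → Fin (R + 1)) ×
    ((y : Fin n ⊕ Fin k) → Fin (D y + 1)) //
    2 * (x.1 : ℕ) + 3 * (x.2.1 : ℕ) + ∑ l, (x.2.2.1 l : ℕ) = 6 * S}

/-- The value at a point of the polynomial with the coefficients `c`. -/
noncomputable def value (c : Mono q S R D → ℤ) (z : Datum n q k) : ℂ :=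
  ∑ e : Mono q S R D, (c e : ℂ) * (z.A ^ (e.1.1 : ℕ) * z.B ^ (e.1.2.1 : ℕ) *
    ((∏ l, ((z.hom l).1 ^ (e.1.2.2.1 l : ℕ) * (z.hom l).2 ^ (R - (e.1.2.2.1 l : ℕ)))) *
      ((∏ i, z.x i ^ (e.1.2.2.2 (Sum.inl i) : ℕ)) *
        ∏ w, z.u w ^ (e.1.2.2.2 (Sum.inr w) : ℕ))))

/-- The index set of the coefficients of the numerators (`0`) and denominators (`1`) of the `m`
components of a rational map. -/
abbrev Idx (m q S R : ℕ) {n k : ℕ} (D : Fin n ⊕ Fin k → ℕ) : Type := Fin m × Fin 2 × Mono q S R D

/-- The point is in `X_c`: the multihomogenizations of all the polynomials `f` in the ideal of `V`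
vanish at the values of the numerators and denominators. -/
def OnPullback (c : Idx m q S R D → ℤ) (V : Set (Fin m → ℂ)) (z : Datum n q k) : Prop :=
  ∀ f ∈ idealOf V, ∑ v ∈ f.support, f.coeff v * ∏ j, (value (fun e => c (j, 0, e)) z ^ v j *
    value (fun e => c (j, 1, e)) z ^ (f.degreeOf j - v j)) = 0

/-- The pull-back `φ_c⁻¹(V)` is not empty: for some point, which is not a zero of any of the
denominators, the vector `N_j / D_j` is in `V`. -/
def Meets (c : Idx m q S R D → ℤ) (V : Set (Fin m → ℂ)) : Prop :=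
  ∃ z : Datum n q k, (∀ j, value (fun e => c (j, 1, e)) z ≠ 0) ∧
    (fun j => value (fun e => c (j, 0, e)) z / value (fun e => c (j, 1, e)) z) ∈ V

/-- The set `X_c` does not meet the special subvarieties of codimension larger than
`dim V + (n + 1 + q + k) - m`. -/
def AvoidsSpecial (c : Idx m q S R D → ℤ) (V : Set (Fin m → ℂ)) : Prop :=
  ∀ z : Datum n q k, OnPullback c V z → ∀ ρ : ℕ,
    zdim V + ((n + 1 + q + k : ℕ) : Cardinal) < ((m + ρ : ℕ) : Cardinal) → ¬ InSpecial z ρ

/-- For every `ρ` every irreducible closed subset of the intersection of `X_c` with the union of all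
special subvarieties of codimension at least `ρ` has dimension at most
`dim V + (n + 1 + q + k) - m - ρ`. More precisely, let `W` be an irreducible closed set of vectors,
such that all vectors in `W` outside of some hypersurface `p = 0`, which does not contain `W`, are
the vectors of coordinates `A, B, x(P_l), x_i, u_w` (numbered in any way) of points of `X_c` which
are in special subvarieties of codimension at least `ρ`. Then
`dim W + m + ρ ≤ dim V + (n + 1 + q + k) + 1`. (This is the cone over a subset of `X_c`, its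
dimension is larger by `1`.) -/
def NoAtypical (c : Idx m q S R D → ℤ) (V : Set (Fin m → ℂ)) : Prop :=
  ∀ (ρ t : ℕ) (σ : Fin t ≃ Fin 2 ⊕ (Fin q ⊕ (Fin n ⊕ Fin k))) (W : Set (Fin t → ℂ))
    (p : MvPolynomial (Fin t) ℂ),
    (∀ w ∈ W, eval w p ≠ 0 → ∃ z : Datum n q k, OnPullback c V z ∧ InSpecial z ρ ∧
      ∀ i, w i = z.coord (σ i)) →
    zcl W ⊆ W → (idealOf W).IsPrime → p ∉ idealOf W →
    zdim W + ((m + ρ : ℕ) : Cardinal) ≤ zdim V + ((n + 1 + q + k + 1 : ℕ) : Cardinal)

theorem xCoord_eq {a b : ℂ} (P : (curve a b).Point) :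
    xCoord P = Pool.Agent.W466.EP.xx (A := a) (B := b) P := by
  rcases P with _ | ⟨x, y, h⟩
  · rfl
  · rfl

/-- the ring of endomorphisms as in the helper files -/
def toE {a b : ℂ} (E : EndRing a b) : Pool.Agent.TH971.RF.EndRing a b where
  O := E.O
  act := E.act
  quad := E.quad
  rat := by
    intro c hc
    obtain ⟨u, w, h1, h2, h3, h4⟩ := E.rat c hc
    refine ⟨u, w, h1, h2, h3, fun P hP hw => ?_⟩
    have e1 : xCoord (a := a) (b := b) P = Pool.Agent.W466.EP.xx (A := a) (B := b) P := xCoord_eq P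
    have hw' : w.eval (xCoord (a := a) (b := b) P) ≠ 0 := by rw [e1]; exact hw
    have h5 := h4 P hP hw'
    have e2 : xCoord (a := a) (b := b) (E.act c P) =
      Pool.Agent.W466.EP.xx (A := a) (B := b) (E.act c P) := xCoord_eq _
    rw [e1, e2] at h5
    exact h5

/-- the module of the relations -/
def relMod {a b : ℂ} (E : EndRing a b) {q : ℕ} (P : Fin q → (curve a b).Point) :
    Submodule E.O (Fin q → E.O) where
  carrier := {c | E.Relation c P}
  zero_mem' := ⟨1, one_pos, by simp [EndRing.comb]⟩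
  add_mem' := by
    rintro c c' ⟨t, ht, h⟩ ⟨t', ht', h'⟩
    refine ⟨t * t', Nat.mul_pos ht ht', ?_⟩
    have e1 : E.comb (c + c') P = E.comb c P + E.comb c' P := by
      unfold EndRing.comb
      rw [← Finset.sum_add_distrib]
      refine Finset.sum_congr rfl fun l _ => ?_
      rw [Pi.add_apply, map_add]
      rfl
    rw [e1, nsmul_add, mul_nsmul, h, mul_comm t t', mul_nsmul, h', nsmul_zero, nsmul_zero, add_zero]
  smul_mem' := by
    rintro r c ⟨t, ht, h⟩
    refine ⟨t, ht, ?_⟩
    have e1 : E.comb (r • c) P = E.act r (E.comb c P) := by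
      simp [EndRing.comb, map_sum]
    rw [e1, ← map_nsmul, h, map_zero]

theorem le_finrank {a b : ℂ} (E : EndRing a b) {q ρ : ℕ} (P : Fin q → (curve a b).Point)
    (c : Fin ρ → Fin q → E.O) (hc : LinearIndependent ℂ (fun i l => (c i l : ℂ)))
    (h : ∀ i, E.Relation (c i) P) : ρ ≤ Module.finrank E.O (relMod E P) := by
  have h1 : LinearIndependent E.O (fun i => (⟨c i, h i⟩ : relMod E P)) := by
    rw [Fintype.linearIndependent_iff] at hc ⊢
    intro g hg i
    have h2 : ∑ i, (g i : ℂ) • (fun l => (c i l : ℂ)) = 0 := by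
      funext l
      have h3 := congrArg (fun v : relMod E P => (((v : Fin q → E.O) l : E.O) : ℂ)) hg
      simpa [Finset.sum_apply] using h3
    exact_mod_cast hc _ h2 i
  have h2 := h1.cardinal_le_rank
  have h3 : Module.rank E.O (relMod E P) < Cardinal.aleph0 := by
    refine (Submodule.rank_le _).trans_lt ?_
    rw [rank_fun']
    exact Cardinal.natCast_lt_aleph0
  have h4 := Cardinal.toNat_le_toNat h2 h3
  simpa [Module.finrank] using h4

/-- the group of the multiplicative relations -/
def relTor {k : ℕ} (u : Fin k → ℂ) (hu : ∀ w, u w ≠ 0) : Submodule ℤ (Fin k → ℤ) where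
  carrier := {a | ∃ t : ℕ, 0 < t ∧ (∏ w, u w ^ a w) ^ t = 1}
  zero_mem' := ⟨1, one_pos, by simp⟩
  add_mem' := by
    rintro a a' ⟨t, ht, h⟩ ⟨t', ht', h'⟩
    refine ⟨t * t', Nat.mul_pos ht ht', ?_⟩
    have e1 : ∏ w, u w ^ (a + a') w = (∏ w, u w ^ a w) * ∏ w, u w ^ a' w := by
      rw [← Finset.prod_mul_distrib]
      exact Finset.prod_congr rfl fun w _ => zpow_add₀ (hu w) _ _
    rw [e1, mul_pow, pow_mul, h, mul_comm t t', pow_mul, h', one_pow, one_pow, one_mul]
  smul_mem' := by
    rintro z a ⟨t, ht, h⟩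
    refine ⟨t, ht, ?_⟩
    have e1 : ∏ w, u w ^ (z • a) w = (∏ w, u w ^ a w) ^ z := by
      rw [← Finset.prod_zpow]
      refine Finset.prod_congr rfl fun w _ => ?_
      rw [Pi.smul_apply, smul_eq_mul, mul_comm, zpow_mul]
    rw [e1, ← zpow_natCast, ← zpow_mul, mul_comm z, zpow_mul, zpow_natCast, h, one_zpow]

theorem le_finrank_tor {k ρ : ℕ} (u : Fin k → ℂ) (hu : ∀ w, u w ≠ 0) (a : Fin ρ → Fin k → ℤ)
    (ha : LinearIndependent ℤ a) (h : ∀ i, ∃ t : ℕ, 0 < t ∧ (∏ w, u w ^ a i w) ^ t = 1) :
    ρ ≤ Module.finrank ℤ (relTor u hu) := by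
  have h1 : LinearIndependent ℤ (fun i => (⟨a i, h i⟩ : relTor u hu)) :=
    LinearIndependent.of_comp (relTor u hu).subtype ha
  have h2 := h1.fintype_card_le_finrank
  rwa [Fintype.card_fin] at h2

theorem value_eq (c : Mono q S R D → ℤ) (z : Datum n q k) :
    value c z = Pool.Agent.Y645.MX.ev c z.A z.B
      (Pool.Agent.Y645.MX.hg (A := z.A) (B := z.B) z.P)
      (fun y => (Sum.elim z.x z.u y, 1)) := by
  classical
  have hh : z.hom = Pool.Agent.Y645.MX.hg (A := z.A) (B := z.B) z.P := by
    funext l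
    unfold Datum.hom Pool.Agent.Y645.MX.hg
    rw [xCoord_eq]
    by_cases h : z.P l = 0
    · exact (if_pos h).trans (if_pos h).symm
    · exact (if_neg h).trans (if_neg h).symm
  unfold value Pool.Agent.Y645.MX.ev Pool.Agent.Y645.MX.mo
  rw [hh]
  refine Finset.sum_congr rfl fun e _ => ?_
  rw [Fintype.prod_sum_type]
  simp only [Sum.elim_inl, Sum.elim_inr, one_pow, mul_one]

/-- points of the pull-back -/
theorem exists_meets (hS0 : 0 < S) (hR0 : 0 < R) (hD : ∀ y, 0 < D y)
    (hm : m ≤ n + 1 + q + k) (V : Set (Fin m → ℂ)) (hV : (idealOf V).IsPrime) (Q₀ : ℕ)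
    (hQ₀ : 0 < Q₀) (c₀ : Idx m q S R D → ℤ) :
    ∃ (Q₁ : ℕ) (c₁ : Idx m q S R D → ℤ), 0 < Q₁ ∧ ∀ c : Idx m q S R D → ℤ,
      (∀ i, (Q₁ : ℤ) ∣ c i - c₁ i) → (∀ i, (Q₀ : ℤ) ∣ c i - c₀ i) ∧ Meets c V := by
  classical
  obtain ⟨v, hv⟩ := nonempty_of_prime hV
  obtain ⟨ψ⟩ : Nonempty (Fin m ↪ Pool.Agent.Y645.MX.Px q (Fin n ⊕ Fin k)) := by
    refine Function.Embedding.nonempty_of_card_le ?_
    rw [Fintype.card_option, Fintype.card_sum, Fintype.card_sum, Fintype.card_fin,
      Fintype.card_fin, Fintype.card_fin, Fintype.card_fin]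
    omega
  obtain ⟨Q₁, c₁, hQ₁, h⟩ := Pool.Agent.Y645.MX.exists_pt hS0 hR0 hD ψ v Q₀ hQ₀ c₀
  refine ⟨Q₁, c₁, hQ₁, fun c hc => ?_⟩
  obtain ⟨hc0, y, hy1, hy2, hy3, hy4⟩ := h c hc
  refine ⟨hc0, ?_⟩
  have hs : 4 * (y none) ^ 3 + 27 * (y none) ^ 2 ≠ 0 := by
    have h1 : 4 * (y none) ^ 3 + 27 * (y none) ^ 2 = y none ^ 2 * (4 * y none + 27) := by ring
    rw [h1]
    exact mul_ne_zero (pow_ne_zero _ hy1) hy2
  have hP : ∀ l : Fin q, ∃ P : (curve (y none) (y none)).Point, P ≠ 0 ∧
      Pool.Agent.W466.EP.xx (A := y none) (B := y none) P = y none * y (some (Sum.inl l)) :=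
    fun l => Pool.Agent.TH971.RF.exists_point hs
  choose P hP0 hPx using hP
  let z : Datum n q k := ⟨y none, y none, hs, P, fun i => y (some (Sum.inr (Sum.inl i))),
    fun w => y (some (Sum.inr (Sum.inr w))), fun w => hy3 _⟩
  have hval : ∀ c' : Mono q S R D → ℤ, value c' z =
      aeval y (Pool.Agent.Y645.MX.evP c') := by
    intro c'
    rw [value_eq, Pool.Agent.Y645.MX.aeval_evP]
    have h1 : Pool.Agent.Y645.MX.hg (A := z.A) (B := z.B) z.P =
        fun l => (y none * y (some (Sum.inl l)), 1) := by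
      funext l
      unfold Pool.Agent.Y645.MX.hg
      refine (if_neg (hP0 l)).trans ?_
      exact Prod.ext (hPx l) rfl
    have h2 : (fun t => ((Sum.elim z.x z.u t : ℂ), (1 : ℂ))) =
        fun t => (y (some (Sum.inr t)), 1) := by
      funext t
      rcases t with t | t <;> rfl
    rw [h1, h2]
  refine ⟨z, fun j => ?_, ?_⟩
  · rw [hval]
    exact (hy4 j).1
  · have h1 : (fun j => value (fun e => c (j, 0, e)) z / value (fun e => c (j, 1, e)) z) = v := by
      funext j
      rw [hval, hval, (hy4 j).2, mul_div_assoc, div_self (hy4 j).1, mul_one]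
    rw [h1]
    exact hv

/-- For all `q ≤ R = 6 b`, `S ≥ 1, q b`, `D_y ≥ 1`, and every irreducible `V ⊆ ℂ^m` of any
dimension: in every residue class modulo any `Q₀` and in every box `H u + [-ε H, ε H]` there is a
positive proportion of integer vectors `c` for which the pull-back `X_c` of `V` to the mixed Shimura
variety `ℰ^q × Y(1)^n × G_m^k` has no atypical intersections with special subvarieties, and is not
empty if `m ≤ n + 1 + q + k`. -/
theorem result (n q k m S R b : ℕ) (hb : 0 < b) (hR : R = 6 * b) (hq : q ≤ R) (hS0 : 0 < S)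
    (hS : q * b ≤ S)
    (D : Fin n ⊕ Fin k → ℕ) (hD : ∀ y, 0 < D y) (V : Set (Fin m → ℂ)) (hV : (idealOf V).IsPrime)
    (Q₀ : ℕ) (hQ₀ : 0 < Q₀) (c₀ : Idx m q S R D → ℤ) (u : Idx m q S R D → ℝ) (ε : ℝ)
    (hε : 0 < ε) :
    ∃ ν : ℝ, 0 < ν ∧ ∀ᶠ H : ℕ in Filter.atTop,
      ν * (H : ℝ) ^ (Fintype.card (Idx m q S R D)) ≤
        Nat.card {c : Idx m q S R D → ℤ // (∀ i, |(c i : ℝ) - H * u i| ≤ ε * H) ∧
          (∀ i, (Q₀ : ℤ) ∣ c i - c₀ i) ∧ NoAtypical c V ∧ AvoidsSpecial c V ∧
          (m ≤ n + 1 + q + k → Meets c V)} := by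
  classical
  have hfin : Algebra.trdeg ℂ (MvPolynomial (Fin m) ℂ ⧸ idealOf V) < Cardinal.aleph0 :=
    trdeg_lt_aleph0_of_finiteType
  obtain ⟨d, hd⟩ := Cardinal.lt_aleph0.1 hfin
  obtain ⟨Q₁, c₁, hQ₁, hmeet⟩ : ∃ (Q₁ : ℕ) (c₁ : Idx m q S R D → ℤ), 0 < Q₁ ∧
      ∀ c : Idx m q S R D → ℤ, (∀ i, (Q₁ : ℤ) ∣ c i - c₁ i) →
        (∀ i, (Q₀ : ℤ) ∣ c i - c₀ i) ∧ (m ≤ n + 1 + q + k → Meets c V) := by
    by_cases hm : m ≤ n + 1 + q + k
    · obtain ⟨Q₁, c₁, hQ₁, h⟩ := exists_meets hS0 (by omega) hD hm V hV Q₀ hQ₀ c₀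
      exact ⟨Q₁, c₁, hQ₁, fun c hc => ⟨(h c hc).1, fun _ => (h c hc).2⟩⟩
    · exact ⟨Q₀, c₀, hQ₀, fun c hc => ⟨hc, fun h => absurd h hm⟩⟩
  obtain ⟨K, Q, G, hK, hQ, hmain⟩ := Pool.Agent.Y645.MX.exists_classX (s := S - q * b) hb hR
    (by omega) hq hD (idealOf V) hd Q₁ hQ₁ c₁
  refine pos_proportion' Q hQ G _ (fun c hc => ?_) u ε hε
  obtain ⟨hc1, hkey⟩ := hmain c hc
  obtain ⟨hc0, hcm⟩ := hmeet c hc1
  have hbound : ∀ z : Datum n q k, OnPullback c V z → ∀ ρ : ℕ, InSpecial z ρ →
      ∀ T : Finset (Fin 2 ⊕ (Fin q ⊕ (Fin n ⊕ Fin k))),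
        AlgebraicIndependent K (fun j : T => z.coord j) →
        T.card + m + ρ ≤ d + (n + 1 + q + k) + 1 ∧ m + ρ ≤ d + (n + 1 + q + k) := by
    rintro z hz ρ ⟨r, Z, ρ₁, ρ₂, hρ, hj, ⟨E, a, ha, haP⟩, a', ha', hau⟩ T hT
    obtain ⟨lam, hlam⟩ := IsAlgClosed.exists_pow_nat_eq ((4 * z.A ^ 3 + 27 * z.B ^ 2)⁻¹)
      (by norm_num : 0 < 12)
    have hlam1 : lam ^ 12 * (4 * z.A ^ 3 + 27 * z.B ^ 2) = 1 := by
      rw [hlam, inv_mul_cancel₀ z.smooth]
    have hco : Pool.Agent.Y645.MX.cco (A := z.A) (B := z.B) z.P z.x z.u = z.coord := by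
      funext j
      rcases j with j | (l | y)
      · rfl
      · exact (xCoord_eq _).symm
      · rfl
    obtain ⟨TM, TE, TT, h1, h2, h3⟩ := Pool.Agent.Y645.MX.exists_T (K := K) z.smooth z.P z.x z.u
      lam hlam1 T (by rw [hco]; exact hT)
    have h4 := hkey z.A z.B z.smooth z.P z.x z.u (by
        intro f hf
        have h5 := hz f hf
        simp only [value_eq] at h5
        exact h5)
      (toE E) (relMod E z.P) (fun a ha => ha) r Z hj (relTor z.u z.unit) (fun a ha => ha) lam
      hlam1 TM TE TT h1 h2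
    have h5 := le_finrank E z.P a ha haP
    have h6 := le_finrank_tor z.u z.unit a' ha' hau
    have h7 : TM.card + TE.card + TT.card + m + Module.finrank E.O (relMod E z.P) +
      Module.finrank ℤ (relTor z.u z.unit) ≤ d + r + q + k := h4
    omega
  refine ⟨hc0, ?_, ?_, hcm⟩
  rotate_left
  · intro z hz ρ hρ hs
    have h1 := (hbound z hz ρ hs ∅ (algebraicIndependent_empty_type)).2
    have h2 : ((m + ρ : ℕ) : Cardinal) ≤ zdim V + ((n + 1 + q + k : ℕ) : Cardinal) := by
      rw [zdim, hd]
      exact_mod_cast h1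
    exact absurd hρ (not_lt.2 h2)
  · intro ρ t σ W p hW hcl hprime hp
    obtain ⟨w, hwW, hpw, T, hT, hdimW⟩ :=
      Pool.Agent.W282.LF.generic_dim_open K W hprime hcl p hp
    obtain ⟨z, hz, hs, hwz⟩ := hW w hwW hpw
    have h3 := (hbound z hz ρ hs (T.map σ.toEmbedding) (by
      have hT' : AlgebraicIndependent K (fun j : T => z.coord (σ j)) := by
        convert hT using 1
        funext j
        exact (hwz j).symm
      let e' : (T.map σ.toEmbedding : Finset (Fin 2 ⊕ (Fin q ⊕ (Fin n ⊕ Fin k)))) ≃ T :=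
        { toFun := fun j => ⟨σ.symm j, by
            obtain ⟨t, ht, h⟩ := Finset.mem_map.1 j.2
            rw [← h]
            simpa using ht⟩
          invFun := fun j => ⟨σ j, Finset.mem_map_of_mem _ j.2⟩
          left_inv := fun j => by simp
          right_inv := fun j => by simp }
      have h5 := hT'.comp e' e'.injective
      convert h5 using 1
      funext j
      simp [e'])).1
    rw [Finset.card_map] at h3
    calc zdim W + ((m + ρ : ℕ) : Cardinal)
        ≤ (T.card : Cardinal) + ((m + ρ : ℕ) : Cardinal) := by gcongr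
      _ = ((T.card + m + ρ : ℕ) : Cardinal) := by push_cast; ring
      _ ≤ ((d + (n + 1 + q + k) + 1 : ℕ) : Cardinal) := by exact_mod_cast h3
      _ = zdim V + ((n + 1 + q + k + 1 : ℕ) : Cardinal) := by
        rw [zdim, hd]
        push_cast
        ring

end Pool.Agent.Results.MP_a325a5_ag.RandomSubvarieties
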